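import Pool.Agent.H15.TG.Targets

/-!
# Board tga_modules, row ASL: all slices (helper12)
-/

set_option autoImplicit false

namespace Pool.Agent.H12.TG

open MvPolynomial Pool.Agent.H2.ST Pool.Agent.H15.TG

theorem pf_ASL (hCKP : T_CKP) (hDUA : T_DUA) (hGBR : T_GBR) (hPPC : T_PPC) : T_ASL := by
  intro k _ _ _ m d W K H f π ψ a c0 hM j0 r hrK hrW hr1 hr2
  classical
  have hGr : Gr W := hM.toGd.toFd.toDat.toPGr.toGr
  have hDat : Dat W K H := hM.toGd.toFd.toDat
  have hMnP : MnP W K f (d + 1) π ψ a c0 := hM.toMnP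
  have hPPC' : ∀ i j, br (π i) (π j) = 0 := hPPC k m d W K H f π ψ a c0 hM
  obtain ⟨b, hb1, hb2⟩ := hDUA k m d W K H f π ψ a c0 hM j0
  have hπK : ∀ i, π i ∈ K := fun i => (mem_Cf.mp (hMnP.hp i)).1
  have hπ0 : ∀ i, π i ≠ 0 := fun i => (hMnP.pp i).ne_zero
  have ha0 : ∀ i, ((a i : ℕ) : k) ≠ 0 := fun i => by
    exact_mod_cast (hMnP.ap i).ne'
  have hccπ : ∀ i, constantCoeff (π i) = 0 := fun i => hDat.van (ψ i) (hMnP.ψ0 i) _ (hMnP.wp i)
  let cf : Fin (d + 1) → k := fun i => ((a i : ℕ) : k) / ((a j0 : ℕ) : k)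
  have hcf : ∀ i, cf i ≠ 0 := fun i => div_ne_zero (ha0 i) (ha0 j0)
  -- the Hamiltonians
  have hG := fun i => hGBR k m d W K H f hDat (b i)
  have hGπ : ∀ i l, i ≠ j0 → l ≠ j0 →
      br (π l) (Gb H (b i)) = -(if i = l then π l else 0) := by
    intro i l hi hl
    rw [br_anti, (hG i).2.2.2 (ψ l) (π l) (hπK l) (hMnP.wp l), hb1 i l hi hl]
    split_ifs
    · rw [one_smul]
    · rw [zero_smul]
  have hGj : ∀ i, i ≠ j0 → br (π j0) (Gb H (b i)) = C (cf i) * π j0 := by
    intro i hi
    rw [br_anti, (hG i).2.2.2 (ψ j0) (π j0) (hπK j0) (hMnP.wp j0), hb2 i hi, neg_smul, neg_neg,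
      smul_eq_C_mul]
  -- the corrected Hamiltonians
  let G' : Fin (d + 1) → Pol k m := fun i => Gb H (b i) - C (cf i) * (π j0 * r)
  have hCK : ∀ c : k, (C c : Pol k m) ∈ K := fun c => K.algebraMap_mem c
  have hCW : ∀ c : k, (C c : Pol k m) ∈ W 0 := fun c => algebraMap_mem_gr hGr c
  have hG'K : ∀ i, G' i ∈ K := fun i =>
    K.sub_mem (hG i).1 (K.mul_mem (hCK _) (K.mul_mem (hπK j0) hrK))
  have hπr : π j0 * r ∈ W 0 := by
    have h := mul_mem_gr hGr (hMnP.wp j0) hrW
    rwa [add_neg_cancel] at h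
  have hG'W : ∀ i, G' i ∈ W 0 := fun i => by
    apply (W 0).sub_mem (hG i).2.1
    have h := mul_mem_gr hGr (hCW (cf i)) hπr
    rwa [add_zero] at h
  have hG'br : ∀ i l, i ≠ j0 → br (π l) (G' i) = if i = l then -π l else 0 := by
    intro i l hi
    show br (π l) (Gb H (b i) - C (cf i) * (π j0 * r)) = _
    rw [br_sub, br_mul, br_C, mul_zero, add_zero, br_mul, hPPC', mul_zero, add_zero]
    by_cases hl : l = j0
    · subst hl
      rw [hGj i hi, hr2, mul_one, sub_self, if_neg hi]
    · rw [hGπ i l hi hl, hr1 l hl, mul_zero, mul_zero, sub_zero]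
      split_ifs
      · rfl
      · rw [neg_zero]
  have hG'cc : ∀ i, constantCoeff (G' i) = 0 := by
    intro i
    show constantCoeff (Gb H (b i) - C (cf i) * (π j0 * r)) = 0
    rw [map_sub, (hG i).2.2.1, map_mul, map_mul, hccπ]
    ring
  have hdvd : ∀ i, i ≠ j0 → π i ∣ G' i := by
    intro i hi
    obtain ⟨c, hc⟩ := hCKP k m d W K H f π ψ a c0 hM i (G' i) (hG'K i) (hG'W i) (by
      intro j
      rw [hG'br i j hi]
      split_ifs with h
      · rw [h]
        exact (dvd_neg.mpr dvd_rfl)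
      · exact dvd_zero _)
    have hc0 : c = 0 := by
      obtain ⟨q, hq⟩ := hc
      have h1 := congrArg constantCoeff hq
      rw [map_sub, hG'cc, constantCoeff_C, map_mul, hccπ, zero_mul, zero_sub, neg_eq_zero] at h1
      exact h1
    rwa [hc0, C_0, sub_zero] at hc
  choose q hq using fun i : {i : Fin (d + 1) // i ≠ j0} => hdvd i.1 i.2
  let R : Fin (d + 1) → Pol k m := fun i => if h : i ≠ j0 then -(q ⟨i, h⟩) else r
  have hRj : R j0 = r := by
    show (if h : j0 ≠ j0 then -(q ⟨j0, h⟩) else r) = r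
    rw [dif_neg (not_not.mpr rfl)]
  have hRi : ∀ i, i ≠ j0 → G' i = -(π i * R i) := by
    intro i hi
    have h1 : R i = -(q ⟨i, hi⟩) := dif_pos hi
    rw [h1, mul_neg, neg_neg]
    exact hq ⟨i, hi⟩
  have hRK : ∀ i, R i ∈ K ∧ R i ∈ W (-ψ i) := by
    intro i
    by_cases hi : i = j0
    · subst hi
      rw [hRj]
      exact ⟨hrK, hrW⟩
    · have h1 := hRi i hi
      have hne : G' i ≠ 0 := by
        intro h0
        have h2 := hG'br i i hi
        rw [h0, br_zero, if_pos rfl] at h2
        exact hπ0 i (neg_eq_zero.mp h2.symm)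
      have h2 : π i * R i ≠ 0 := by
        intro h0
        rw [h0, neg_zero] at h1
        exact hne h1
      have h3 : π i * R i = -G' i := by rw [h1, neg_neg]
      have h4 : π i * R i ∈ K := by rw [h3]; exact K.neg_mem (hG'K i)
      refine ⟨(hDat.fc _ _ h2 h4).2, ?_⟩
      apply mem_of_cmp hGr
      intro χ hχ
      have h5 : R i * π i ∈ W 0 := by
        rw [mul_comm, h3]
        exact (W 0).neg_mem (hG'W i)
      have h6 := cmp_mul_of_mem hGr (hMnP.wp i) (R i) χ
      rw [cmp_of_mem hGr h5, Finsupp.single_apply, if_neg] at h6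
      · exact (mul_eq_zero.mp h6.symm).resolve_right (hπ0 i)
      · intro h7
        exact hχ (eq_neg_of_add_eq_zero_left h7.symm)
  have hRbr : ∀ l i, br (π l) (R i) = if l = i then 1 else 0 := by
    intro l i
    by_cases hi : i = j0
    · subst hi
      rw [hRj]
      by_cases hl : l = i
      · subst hl
        rw [if_pos rfl]
        exact hr2
      · rw [if_neg hl]
        exact hr1 l hl
    · have h1 := hG'br i l hi
      rw [hRi i hi, br_neg, br_mul, hPPC', mul_zero, add_zero] at h1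
      by_cases hl : l = i
      · subst hl
        rw [if_pos rfl] at h1 ⊢
        have h2 : π l * br (π l) (R l) = π l * 1 := by
          rw [mul_one]
          exact neg_inj.mp h1
        exact mul_left_cancel₀ (hπ0 l) h2
      · rw [if_neg (fun h => hl h.symm)] at h1
        rw [if_neg hl]
        exact (mul_eq_zero.mp (neg_eq_zero.mp h1)).resolve_left (hπ0 i)
  refine ⟨R, hRK, hRbr, ?_⟩
  -- commutation
  have hGR : ∀ i, i ≠ j0 → Gb H (b i) = -(π i * R i) + C (cf i) * (π j0 * R j0) := by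
    intro i hi
    have h1 := hRi i hi
    rw [hRj, ← h1]
    show Gb H (b i) = (Gb H (b i) - C (cf i) * (π j0 * r)) + C (cf i) * (π j0 * r)
    ring
  have key : ∀ i j, i ≠ j0 → j ≠ j0 →
      C (cf i) * (π j0 * br (R j0) (R j)) = π i * br (R i) (R j) := by
    intro i j hi hj
    have h1 : br (Gb H (b i)) (R j) = -(if i = j then R j else 0) := by
      rw [(hG i).2.2.2 (-ψ j) (R j) (hRK j).1 (hRK j).2]
      have h2 : ∑ t, b i t * (((-ψ j) t : ℤ) : k) = -(if i = j then 1 else 0) := by
        rw [← hb1 i j hi hj, ← Finset.sum_neg_distrib]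
        apply Finset.sum_congr rfl
        intro t _
        rw [Pi.neg_apply]
        push_cast
        ring
      rw [h2]
      split_ifs
      · rw [neg_smul, one_smul]
      · rw [neg_zero, zero_smul, neg_zero]
    have hjj : ¬ (j0 = j) := fun h => hj h.symm
    rw [hGR i hi, add_br, neg_br, mul_br, mul_br, mul_br, C_br, mul_zero, add_zero, hRbr,
      hRbr] at h1
    rw [if_neg hjj, mul_zero, add_zero] at h1
    by_cases hij : i = j
    · subst hij
      rw [if_pos rfl, if_pos rfl, mul_one] at h1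
      linear_combination h1
    · rw [if_neg hij, if_neg hij, mul_zero, add_zero, neg_zero] at h1
      linear_combination h1
  have h0 : ∀ j, br (R j0) (R j) = 0 := by
    intro j
    by_cases hj : j = j0
    · subst hj
      exact br_self _
    · have h1 := key j j hj hj
      rw [br_self, mul_zero] at h1
      have h2 : (C (cf j) : Pol k m) ≠ 0 := by
        intro h3
        exact hcf j (C_injective _ _ (h3.trans C_0.symm))
      exact (mul_eq_zero.mp ((mul_eq_zero.mp h1).resolve_left h2)).resolve_left (hπ0 j0)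
  intro i j
  by_cases hi : i = j0
  · subst hi
    exact h0 j
  · by_cases hj : j = j0
    · subst hj
      rw [br_anti, h0 i, neg_zero]
    · have h1 := key i j hi hj
      rw [h0 j, mul_zero, mul_zero] at h1
      exact (mul_eq_zero.mp h1.symm).resolve_left (hπ0 i)

end Pool.Agent.H12.TG
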