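import Mathlib

/-!
# One-cocycles of commuting families of operators
-/

open Module

namespace Pool.Agent.H12.TG

section defs

variable {k : Type*} [CommRing k] {ι : Type*}

/-- Families `z` with `T i (z j) = T j (z i)`. -/
def Z1 {M : Type*} [AddCommGroup M] [Module k M] (T : ι → M →ₗ[k] M) : Submodule k (ι → M) where
  carrier := {z | ∀ i j, T i (z j) = T j (z i)}
  add_mem' := by
    intro z w hz hw i j
    simp only [Pi.add_apply, map_add]
    rw [hz i j, hw i j]
  zero_mem' := by
    intro i j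
    simp
  smul_mem' := by
    intro c z hz i j
    simp only [Pi.smul_apply, map_smul]
    rw [hz i j]

theorem mem_Z1 {M : Type*} [AddCommGroup M] [Module k M] {T : ι → M →ₗ[k] M} {z : ι → M} :
    z ∈ Z1 T ↔ ∀ i j, T i (z j) = T j (z i) := Iff.rfl

/-- The common kernel. -/
def H0 {M : Type*} [AddCommGroup M] [Module k M] (T : ι → M →ₗ[k] M) : Submodule k M where
  carrier := {m | ∀ i, T i m = 0}
  add_mem' := by
    intro z w hz hw i
    rw [map_add, hz i, hw i, add_zero]
  zero_mem' := by
    intro i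
    simp
  smul_mem' := by
    intro c z hz i
    rw [map_smul, hz i, smul_zero]

theorem mem_H0 {M : Type*} [AddCommGroup M] [Module k M] {T : ι → M →ₗ[k] M} {m : M} :
    m ∈ H0 T ↔ ∀ i, T i m = 0 := Iff.rfl

variable {V U : Type*} [AddCommGroup V] [Module k V] [AddCommGroup U] [Module k U]

/-- `f ↦ Y ∘ f - f ∘ X` -/
def ad (X : ι → V →ₗ[k] V) (Y : ι → U →ₗ[k] U) (i : ι) : (V →ₗ[k] U) →ₗ[k] (V →ₗ[k] U) where
  toFun f := Y i ∘ₗ f - f ∘ₗ X i
  map_add' f g := by
    rw [LinearMap.comp_add, LinearMap.add_comp]; abel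
  map_smul' c f := by
    rw [LinearMap.comp_smul, LinearMap.smul_comp, RingHom.id_apply, smul_sub]

@[simp] theorem ad_apply (X : ι → V →ₗ[k] V) (Y : ι → U →ₗ[k] U) (i : ι) (f : V →ₗ[k] U) :
    ad X Y i f = Y i ∘ₗ f - f ∘ₗ X i := rfl

end defs

section equiv

variable {k : Type*} [Field k] {ι ι' : Type*}
  {M M' : Type*} [AddCommGroup M] [Module k M] [AddCommGroup M'] [Module k M']

/-- transport along a linear equivalence -/
theorem finrank_Z1_congr (e : M ≃ₗ[k] M') (f : ι ≃ ι') (T : ι → M →ₗ[k] M) (T' : ι' → M' →ₗ[k] M')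
    (h : ∀ i m, e (T i m) = T' (f i) (e m)) : finrank k (Z1 T) = finrank k (Z1 T') := by
  let e2 : (ι → M) ≃ₗ[k] (ι' → M') :=
    (LinearEquiv.piCongrRight fun _ => e).trans (LinearEquiv.funCongrLeft k M' f.symm)
  have he2 : ∀ z i, e2 z i = e (z (f.symm i)) := fun z i => rfl
  have hmap : (Z1 T).map (e2 : (ι → M) →ₗ[k] (ι' → M')) = Z1 T' := by
    ext w
    rw [Submodule.mem_map]
    constructor
    · rintro ⟨z, hz, rfl⟩
      intro i j
      have h1 := hz (f.symm i) (f.symm j)
      have h2 := congrArg e h1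
      rw [h, h, Equiv.apply_symm_apply, Equiv.apply_symm_apply] at h2
      exact h2
    · intro hw
      refine ⟨e2.symm w, ?_, e2.apply_symm_apply w⟩
      intro i j
      apply e.injective
      have h3 : ∀ i, e (e2.symm w i) = w (f i) := by
        intro i
        have := he2 (e2.symm w) (f i)
        rw [Equiv.symm_apply_apply, LinearEquiv.apply_symm_apply] at this
        exact this.symm
      rw [h, h, h3, h3]
      exact hw _ _
  rw [← hmap]
  exact (e2.submoduleMap (Z1 T)).finrank_eq

theorem finrank_H0_congr (e : M ≃ₗ[k] M') (f : ι ≃ ι') (T : ι → M →ₗ[k] M) (T' : ι' → M' →ₗ[k] M')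
    (h : ∀ i m, e (T i m) = T' (f i) (e m)) : finrank k (H0 T) = finrank k (H0 T') := by
  have hmap : (H0 T).map (e : M →ₗ[k] M') = H0 T' := by
    ext w
    rw [Submodule.mem_map]
    constructor
    · rintro ⟨z, hz, rfl⟩
      intro i
      have h1 := congrArg e (hz (f.symm i))
      rw [h, Equiv.apply_symm_apply, map_zero] at h1
      exact h1
    · intro hw
      refine ⟨e.symm w, ?_, e.apply_symm_apply w⟩
      intro i
      apply e.injective
      rw [h, e.apply_symm_apply, map_zero]
      exact hw _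
  rw [← hmap]
  exact (e.submoduleMap (H0 T)).finrank_eq

end equiv

end Pool.Agent.H12.TG
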