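import Pool.Agent.H12.TG.Kunneth

open Module TensorProduct

namespace Pool.Agent.H12.TG

variable {k : Type*} [Field k] {ι ι' : Type*}
  {M M' : Type*} [AddCommGroup M] [Module k M]
  [AddCommGroup M'] [Module k M']

/-- the operators `T i ⊗ 1` and `1 ⊗ T' j` -/
noncomputable def box (T : ι → M →ₗ[k] M) (T' : ι' → M' →ₗ[k] M') :
    ι ⊕ ι' → (M ⊗[k] M') →ₗ[k] (M ⊗[k] M') :=
  Sum.elim (fun i => (T i).rTensor M') (fun j => (T' j).lTensor M)

@[simp] theorem box_inl (T : ι → M →ₗ[k] M) (T' : ι' → M' →ₗ[k] M') (i : ι) (m : M) (m' : M') :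
    box T T' (Sum.inl i) (m ⊗ₜ m') = T i m ⊗ₜ m' := rfl

@[simp] theorem box_inr (T : ι → M →ₗ[k] M) (T' : ι' → M' →ₗ[k] M') (i : ι') (m : M) (m' : M') :
    box T T' (Sum.inr i) (m ⊗ₜ m') = m ⊗ₜ T' i m' := rfl

/-- A bound for the common kernel and for the excess of the cocycles over the coboundaries. -/
structure Bd (T : ι → M →ₗ[k] M) (h e : ℕ) : Prop where
  comm : ∀ i j m, T i (T j m) = T j (T i m)
  h0 : finrank k (H0 T) ≤ h
  z1 : finrank k (Z1 T) + finrank k (H0 T) ≤ finrank k M + e

theorem Bd.congr {T : ι → M →ₗ[k] M} {T' : ι' → M' →ₗ[k] M'} {h e : ℕ} (hT : Bd T h e)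
    (φ : M ≃ₗ[k] M') (f : ι ≃ ι') (hφ : ∀ i m, φ (T i m) = T' (f i) (φ m)) : Bd T' h e := by
  refine ⟨?_, ?_, ?_⟩
  · intro i j m
    obtain ⟨i, rfl⟩ := f.surjective i
    obtain ⟨j, rfl⟩ := f.surjective j
    obtain ⟨m, rfl⟩ := φ.surjective m
    rw [← hφ, ← hφ, ← hφ, ← hφ, hT.comm]
  · rw [← finrank_H0_congr φ f T T' hφ]; exact hT.h0
  · rw [← finrank_H0_congr φ f T T' hφ, ← finrank_Z1_congr φ f T T' hφ, ← φ.finrank_eq]
    exact hT.z1

variable [Finite ι] [Finite ι'] [FiniteDimensional k M] [FiniteDimensional k M']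

theorem Bd.box {T : ι → M →ₗ[k] M} {T' : ι' → M' →ₗ[k] M'} {h e h' e' : ℕ} (hT : Bd T h e)
    (hT' : Bd T' h' e') : Bd (box T T') (h * h') (e * h' + h * e') := by
  classical
  let f := Module.finBasis k M'
  let J := Fin (finrank k M')
  let τ : ι' → Matrix J J k := fun j => LinearMap.toMatrix f f (T' j)
  have hτ : ∀ j, Matrix.toLin' (τ j) = (f.equivFun : M' →ₗ[k] (J → k)) ∘ₗ (T' j) ∘ₗ
      (f.equivFun.symm : (J → k) →ₗ[k] M') := by
    intro j
    apply LinearMap.ext
    intro v
    simp only [LinearMap.comp_apply, LinearEquiv.coe_coe]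
    have h1 := LinearMap.toMatrix_mulVec_repr f f (T' j) (f.equivFun.symm v)
    rw [Matrix.toLin'_apply]
    have h2 : (⇑(f.repr (f.equivFun.symm v)) : J → k) = v := f.equivFun.apply_symm_apply v
    rw [h2] at h1
    exact h1
  have e0 : finrank k (H0 fun j => Matrix.toLin' (τ j)) = finrank k (H0 T') := by
    symm
    refine finrank_H0_congr f.equivFun (Equiv.refl _) _ _ ?_
    intro i m
    rw [hτ]
    simp
  have e1 : finrank k (Z1 fun j => Matrix.toLin' (τ j)) = finrank k (Z1 T') := by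
    symm
    refine finrank_Z1_congr f.equivFun (Equiv.refl _) _ _ ?_
    intro i m
    rw [hτ]
    simp
  let φ : M ⊗[k] M' ≃ₗ[k] (J → M) :=
    (TensorProduct.congr (LinearEquiv.refl k M) f.equivFun).trans
      (TensorProduct.piScalarRight k k M J)
  have hφ : ∀ m m' γ, φ (m ⊗ₜ m') γ = f.repr m' γ • m := by
    intro m m' γ
    simp [φ]
  have hφbox : ∀ i m, φ (TG.box T T' i m) = Sum.elim (opL J T) (opR M τ) (Equiv.refl _ i) (φ m) := by
    intro i m
    induction m using TensorProduct.induction_on with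
    | zero => simp
    | add x y hx hy => simp only [map_add, hx, hy]
    | tmul m m' =>
      funext γ
      rcases i with i | j
      · rw [box_inl, hφ]
        simp only [Equiv.refl_apply, Sum.elim_inl, opL_apply, hφ, map_smul]
      · rw [box_inr, hφ]
        simp only [Equiv.refl_apply, Sum.elim_inr, opR_apply, hφ, smul_smul, ← Finset.sum_smul]
        congr 1
        have h1 := congrFun (LinearMap.toMatrix_mulVec_repr f f (T' j) m') γ
        rw [← h1]
        rfl
  have hH := finrank_H0_box T τ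
  have hZ := finrank_Z1_box T hT.comm τ e hT.z1
  rw [e0] at hH hZ
  rw [e1] at hZ
  rw [← finrank_H0_congr φ (Equiv.refl _) (TG.box T T') _ hφbox] at hH
  rw [← finrank_Z1_congr φ (Equiv.refl _) (TG.box T T') _ hφbox] at hZ
  have hJ : Fintype.card J = finrank k M' := Fintype.card_fin _
  rw [hJ] at hZ
  refine ⟨?_, ?_, ?_⟩
  · intro i j m
    induction m using TensorProduct.induction_on with
    | zero => simp
    | add x y hx hy => simp only [map_add, hx, hy]
    | tmul m m' =>
      rcases i with i | i <;> rcases j with j | j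
      · simp only [box_inl, hT.comm i j]
      · simp only [box_inl, box_inr]
      · simp only [box_inl, box_inr]
      · simp only [box_inr, hT'.comm i j]
  · exact hH.trans (Nat.mul_le_mul hT.h0 hT'.h0)
  · rw [finrank_tensorProduct]
    have h1 := hT.h0
    have h2 := hT'.h0
    have h3 := hT'.z1
    have h4 : e * finrank k (H0 T') ≤ e * h' := Nat.mul_le_mul_left _ h2
    have h5 : finrank k (H0 T) * (finrank k (Z1 T') + finrank k (H0 T')) ≤
      finrank k (H0 T) * (finrank k M' + e') := Nat.mul_le_mul_left _ h3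
    have h6 : finrank k (H0 T) * e' ≤ h * e' := Nat.mul_le_mul_right _ h1
    rw [mul_add, mul_add] at h5
    omega

section hom

variable {V V' U U' : Type*} [AddCommGroup V] [Module k V] [AddCommGroup V'] [Module k V']
  [AddCommGroup U] [Module k U] [AddCommGroup U'] [Module k U']
  [FiniteDimensional k V] [FiniteDimensional k V'] [FiniteDimensional k U] [FiniteDimensional k U']

omit [Finite ι] [Finite ι'] [FiniteDimensional k U] [FiniteDimensional k U'] in
theorem ad_box (X : ι → V →ₗ[k] V) (X' : ι' → V' →ₗ[k] V') (Y : ι → U →ₗ[k] U)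
    (Y' : ι' → U' →ₗ[k] U') (s : ι ⊕ ι') (m : (V →ₗ[k] U) ⊗[k] (V' →ₗ[k] U')) :
    homTensorHomEquiv k V V' U U' (box (ad X Y) (ad X' Y') s m) =
      ad (box X X') (box Y Y') s (homTensorHomEquiv k V V' U U' m) := by
  induction m using TensorProduct.induction_on with
  | zero => simp
  | add x y hx hy => simp only [map_add, hx, hy]
  | tmul f g =>
    rcases s with i | j
    · rw [box_inl]
      simp only [homTensorHomEquiv_apply, homTensorHomMap_apply]
      ext v v'
      simp [box, TensorProduct.sub_tmul]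
    · rw [box_inr]
      simp only [homTensorHomEquiv_apply, homTensorHomMap_apply]
      ext v v'
      simp [box, TensorProduct.tmul_sub]

theorem Bd.ad_box {X : ι → V →ₗ[k] V} {X' : ι' → V' →ₗ[k] V'} {Y : ι → U →ₗ[k] U}
    {Y' : ι' → U' →ₗ[k] U'} {h e h' e' : ℕ} (h1 : Bd (ad X Y) h e) (h2 : Bd (ad X' Y') h' e') :
    Bd (ad (TG.box X X') (TG.box Y Y')) (h * h') (e * h' + h * e') :=
  (h1.box h2).congr (homTensorHomEquiv k V V' U U') (Equiv.refl _) (TG.ad_box X X' Y Y')

end hom

end Pool.Agent.H12.TG
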