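import Pool.Agent.Results.MP_44217d_ag.TangentGrowth

/-!
# A scheme of degree 8 to which TangentGrowth applies
-/

open TensorProduct Module MvPolynomial

namespace Pool.Agent.H12.TG.DegreeEight

open Pool.Agent.H12.Defect Pool.Agent.H12.TG Pool.Agent.Results.MP_44217d_ag.TangentGrowth

universe u

/-- For the ideal `I₇` of `k[x_0, x_1, y_0, y_1]` generated by the seven quadrics
`x_0² - y_0²`, `x_0 x_1 - y_0 y_1`, `x_1² - y_1²`, `x_p y_q` we have `d = 8` and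
`t ≤ 25 < 32 = N d`, and for every `n ≥ 1` and `δ = deg Γ' - deg Γ^n` with `Γ'` smoothable containing
`Γ^n` we have `(8/3)^(n-1) ≤ 128 δ`. -/
theorem degree_eight (k : Type u) [Field k] [IsAlgClosed k] :
    finrank k (MvPolynomial (Fin 2 × Fin 2) k ⧸ I₇ k) = 8 ∧ tangentDim (I₇ k) ≤ 25 ∧
      ∀ n : ℕ, 1 ≤ n → ∀ δ ∈ defects k (⨂[k] _ : Fin n, MvPolynomial (Fin 2 × Fin 2) k ⧸ I₇ k),
        (8 / 3 : ℝ) ^ (n - 1) ≤ 128 * δ := by
  have e := quotEquiv adjoin_gx (I₇_eq k)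
  have h8 : finrank k (MvPolynomial (Fin 2 × Fin 2) k ⧸ I₇ k) = 8 := by
    rw [e.toLinearEquiv.finrank_eq]
    exact Net.finrank_eq
  have h25 : tangentDim (I₇ k) ≤ 25 := by
    rw [tangentDim_eq adjoin_gx (I₇_eq k)]
    exact finrank_tangent_le
  have h3 : finrank k (socle k (MvPolynomial (Fin 2 × Fin 2) k ⧸ I₇ k)) ≤ 3 := by
    rw [finrank_socle_congr e]
    exact finrank_socle_le
  refine ⟨h8, h25, ?_⟩
  intro n hn δ hδ
  have : FiniteDimensional k (MvPolynomial (Fin 2 × Fin 2) k ⧸ I₇ k) :=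
    Module.finite_of_finrank_pos (by rw [h8]; norm_num)
  have hd : 0 < finrank k (MvPolynomial (Fin 2 × Fin 2) k ⧸ I₇ k) := by rw [h8]; norm_num
  have hmain := main_ineq _ (adjoin_mk (I₇ k)) hd hn hδ
  rw [← tangentDim_eq'] at hmain
  have h4 : Fintype.card (Fin 2 × Fin 2) = 4 := by simp
  rw [h8, h4] at hmain
  have hmain2 : 4 * 8 ^ n ≤ 25 * 8 ^ (n - 1) + 4 * 8 * (1 + 3 ^ (n - 1)) * δ + 4 * (δ * δ) := by
    refine hmain.trans ?_
    gcongr
  have := real_bound (N := 4) (d := 8) (t := 25) (τ := 3) (β := 8 / 3) (by norm_num)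
    (by norm_num) (by norm_num) (by norm_num) (by norm_num) (by norm_num) hn hmain2
  calc (8 / 3 : ℝ) ^ (n - 1) ≤ 4 * ((4 : ℕ) : ℝ) * ((8 : ℕ) : ℝ) * δ := this
    _ = 128 * δ := by push_cast; ring

end Pool.Agent.H12.TG.DegreeEight
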