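import Pool.Agent.H12.TG.Main
import Pool.Agent.H12.Defect.Net

/-!
# The degree eight example
-/

open Module MvPolynomial

namespace Pool.Agent.H12.TG

open Pool.Agent.H12.Defect

universe u

variable (k : Type u) [Field k]

/-- the generators `x_i, y_i` of `Net k 2` -/
noncomputable def gx (s : Fin 2 × Fin 2) : Net k 2 := Net.bas k 2 (Sum.inr (Sum.inl s))

/-- the seven quadrics -/
noncomputable def quad : Fin 3 ⊕ (Fin 2 × Fin 2) → MvPolynomial (Fin 2 × Fin 2) k :=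
  Sum.elim ![X (0, 0) * X (0, 0) - X (1, 0) * X (1, 0), X (0, 0) * X (0, 1) - X (1, 0) * X (1, 1),
    X (0, 1) * X (0, 1) - X (1, 1) * X (1, 1)] (fun s => X (0, s.1) * X (1, s.2))

variable {k}

theorem gx_mul (s : Fin 2 × Fin 2) (a : Net k 2) :
    gx k s * a = (0, a.1 • Pi.single s 1, Net.Q (Pi.single s 1) a.2.1) := by
  apply Net.ext'
  · rw [Net.mul_fst, gx, Net.bas_V_fst, zero_mul]
  · rw [Net.mul_snd1, gx, Net.bas_V_fst, Net.bas_V_snd1, zero_smul, zero_add]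
  · rw [Net.mul_snd2, gx, Net.bas_V_fst, Net.bas_V_snd1, Net.bas_V_snd2, zero_smul, smul_zero,
      zero_add, zero_add]

theorem Q_00 (v : Fin 2 × Fin 2 → k) : Net.Q (Pi.single (0, 0) 1) v = ![v (0, 0), v (0, 1), 0] := by
  ext w; fin_cases w <;> simp [Net.Q, Pi.single_apply]

theorem Q_01 (v : Fin 2 × Fin 2 → k) : Net.Q (Pi.single (0, 1) 1) v = ![0, v (0, 0), v (0, 1)] := by
  ext w; fin_cases w <;> simp [Net.Q, Pi.single_apply]

theorem Q_10 (v : Fin 2 × Fin 2 → k) : Net.Q (Pi.single (1, 0) 1) v = ![v (1, 0), v (1, 1), 0] := by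
  ext w; fin_cases w <;> simp [Net.Q, Pi.single_apply]

theorem Q_11 (v : Fin 2 × Fin 2 → k) : Net.Q (Pi.single (1, 1) 1) v = ![0, v (1, 0), v (1, 1)] := by
  ext w; fin_cases w <;> simp [Net.Q, Pi.single_apply]

theorem gx_fst (s : Fin 2 × Fin 2) : (gx k s).1 = 0 := by rw [gx, Net.bas_V_fst]
theorem gx_snd1 (s : Fin 2 × Fin 2) : (gx k s).2.1 = Pi.single s 1 := by rw [gx, Net.bas_V_snd1]

theorem aeval_X' (s : Fin 2 × Fin 2) : aeval (gx k) (X s : MvPolynomial (Fin 2 × Fin 2) k) = gx k s :=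
  aeval_X _ _

theorem quad_mem (g : Fin 3 ⊕ (Fin 2 × Fin 2)) :
    quad k g ∈ RingHom.ker (aeval (gx k) : MvPolynomial (Fin 2 × Fin 2) k →ₐ[k] Net k 2) := by
  rw [RingHom.mem_ker]
  rcases g with m | ⟨p, q⟩
  · fin_cases m
    · simp only [quad, Sum.elim_inl, Fin.zero_eta, Matrix.cons_val_zero, map_sub, map_mul, aeval_X',
        gx_mul, gx_fst, gx_snd1, zero_smul, Q_00, Q_10]
      apply Net.ext'
      · change (0 : k) - 0 = 0; simp
      · change (0 : Fin 2 × Fin 2 → k) - 0 = 0; simp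
      · change (![_, _, _] : Fin 3 → k) - ![_, _, _] = 0
        ext w; fin_cases w <;> simp
    · simp only [quad, Sum.elim_inl, Fin.mk_one, Matrix.cons_val_one, Matrix.cons_val_zero, map_sub,
        map_mul, aeval_X', gx_mul, gx_fst, gx_snd1, zero_smul, Q_00, Q_10]
      apply Net.ext'
      · change (0 : k) - 0 = 0; simp
      · change (0 : Fin 2 × Fin 2 → k) - 0 = 0; simp
      · change (![_, _, _] : Fin 3 → k) - ![_, _, _] = 0
        ext w; fin_cases w <;> simp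
    · simp only [quad, Sum.elim_inl, Fin.reduceFinMk, Matrix.cons_val, map_sub,
        map_mul, aeval_X', gx_mul, gx_fst, gx_snd1, zero_smul, Q_01, Q_11]
      apply Net.ext'
      · change (0 : k) - 0 = 0; simp
      · change (0 : Fin 2 × Fin 2 → k) - 0 = 0; simp
      · change (![_, _, _] : Fin 3 → k) - ![_, _, _] = 0
        ext w; fin_cases w <;> simp
  · simp only [quad, Sum.elim_inr, map_mul, aeval_X', gx_mul, gx_fst, gx_snd1, zero_smul]
    apply Net.ext'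
    · rfl
    · rfl
    · change Net.Q _ _ = 0
      fin_cases p <;> fin_cases q <;> simp only [Fin.zero_eta, Fin.mk_one, Q_00, Q_01] <;>
        (ext w; fin_cases w <;> simp)

/-- the normal form -/
noncomputable def nf (a : Net k 2) : MvPolynomial (Fin 2 × Fin 2) k :=
  C a.1 + (C (a.2.1 (0, 0)) * X (0, 0) + C (a.2.1 (0, 1)) * X (0, 1) + C (a.2.1 (1, 0)) * X (1, 0) +
    C (a.2.1 (1, 1)) * X (1, 1)) + (C (a.2.2 0) * (X (0, 0) * X (0, 0)) +
      C (a.2.2 1) * (X (0, 0) * X (0, 1)) + C (a.2.2 2) * (X (0, 1) * X (0, 1)))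

theorem nf_add (a b : Net k 2) : nf (a + b) = nf a + nf b := by
  simp only [nf, Net.add_fst, Net.add_snd1, Net.add_snd2, Pi.add_apply, C_add]
  ring

theorem nf_zero : nf (0 : Net k 2) = 0 := by
  simp [nf]

theorem nf_mul (s : Fin 2 × Fin 2) (a : Net k 2) :
    nf a * X s - nf (gx k s * a) ∈ Ideal.span (Set.range (quad k)) := by
  have hq : ∀ (g : Fin 3 ⊕ (Fin 2 × Fin 2)) (c : MvPolynomial (Fin 2 × Fin 2) k),
      c * quad k g ∈ Ideal.span (Set.range (quad k)) := fun g c =>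
    Ideal.mul_mem_left _ _ (Ideal.subset_span ⟨g, rfl⟩)
  have e0 : quad k (Sum.inl 0) = X (0, 0) * X (0, 0) - X (1, 0) * X (1, 0) := rfl
  have e1 : quad k (Sum.inl 1) = X (0, 0) * X (0, 1) - X (1, 0) * X (1, 1) := rfl
  have e2 : quad k (Sum.inl 2) = X (0, 1) * X (0, 1) - X (1, 1) * X (1, 1) := rfl
  have e3 : ∀ p q, quad k (Sum.inr (p, q)) = X (0, p) * X (1, q) := fun p q => rfl
  set v := a.2.1
  set w := a.2.2
  obtain ⟨i, p⟩ := s
  rw [gx_mul]
  fin_cases i <;> fin_cases p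
  · have key : nf a * X (0, 0) - nf ((0, a.1 • Pi.single (0, 0) 1,
        Net.Q (Pi.single (0, 0) 1) a.2.1) : Net k 2) =
        (C (v (1, 0)) + C (w 0) * X (1, 0) + C (w 1) * X (1, 1)) * quad k (Sum.inr (0, 0)) +
        (C (v (1, 1)) + C (w 2) * X (1, 1)) * quad k (Sum.inr (0, 1)) +
        (C (w 0) * X (0, 0)) * quad k (Sum.inl 0) +
        (C (w 1) * X (0, 0)) * quad k (Sum.inl 1) + (C (w 2) * X (0, 0)) * quad k (Sum.inl 2) := by
      rw [e0, e1, e2, e3, e3, Q_00]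
      simp [nf, v, w]
      ring
    simp only [Fin.zero_eta]
    rw [key]
    exact add_mem (add_mem (add_mem (add_mem (hq _ _) (hq _ _)) (hq _ _)) (hq _ _)) (hq _ _)
  · have key : nf a * X (0, 1) - nf ((0, a.1 • Pi.single (0, 1) 1,
        Net.Q (Pi.single (0, 1) 1) a.2.1) : Net k 2) =
        (C (v (1, 0)) + C (w 0) * X (1, 0) + C (w 1) * X (1, 1)) * quad k (Sum.inr (1, 0)) +
        (C (v (1, 1)) + C (w 2) * X (1, 1)) * quad k (Sum.inr (1, 1)) +
        (C (w 0) * X (0, 1)) * quad k (Sum.inl 0) +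
        (C (w 1) * X (0, 1)) * quad k (Sum.inl 1) + (C (w 2) * X (0, 1)) * quad k (Sum.inl 2) := by
      rw [e0, e1, e2, e3, e3, Q_01]
      simp [nf, v, w]
      ring
    simp only [Fin.zero_eta, Fin.mk_one]
    rw [key]
    exact add_mem (add_mem (add_mem (add_mem (hq _ _) (hq _ _)) (hq _ _)) (hq _ _)) (hq _ _)
  · have key : nf a * X (1, 0) - nf ((0, a.1 • Pi.single (1, 0) 1,
        Net.Q (Pi.single (1, 0) 1) a.2.1) : Net k 2) =
        (C (v (0, 0)) + C (w 0) * X (0, 0)) * quad k (Sum.inr (0, 0)) +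
        (C (v (0, 1)) + C (w 1) * X (0, 0) + C (w 2) * X (0, 1)) * quad k (Sum.inr (1, 0)) +
        (- C (v (1, 0))) * quad k (Sum.inl 0) + (- C (v (1, 1))) * quad k (Sum.inl 1) := by
      rw [e0, e1, e3, e3, Q_10]
      simp [nf, v, w]
      ring
    simp only [Fin.zero_eta, Fin.mk_one]
    rw [key]
    exact add_mem (add_mem (add_mem (hq _ _) (hq _ _)) (hq _ _)) (hq _ _)
  · have key : nf a * X (1, 1) - nf ((0, a.1 • Pi.single (1, 1) 1,
        Net.Q (Pi.single (1, 1) 1) a.2.1) : Net k 2) =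
        (C (v (0, 0)) + C (w 0) * X (0, 0)) * quad k (Sum.inr (0, 1)) +
        (C (v (0, 1)) + C (w 1) * X (0, 0) + C (w 2) * X (0, 1)) * quad k (Sum.inr (1, 1)) +
        (- C (v (1, 0))) * quad k (Sum.inl 1) + (- C (v (1, 1))) * quad k (Sum.inl 2) := by
      rw [e1, e2, e3, e3, Q_11]
      simp [nf, v, w]
      ring
    simp only [Fin.mk_one]
    rw [key]
    exact add_mem (add_mem (add_mem (hq _ _) (hq _ _)) (hq _ _)) (hq _ _)

theorem sub_nf_mem (f : MvPolynomial (Fin 2 × Fin 2) k) :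
    f - nf (aeval (gx k) f) ∈ Ideal.span (Set.range (quad k)) := by
  induction f using MvPolynomial.induction_on with
  | C r =>
    have h1 : aeval (gx k) (C r : MvPolynomial (Fin 2 × Fin 2) k) = r • (1 : Net k 2) := by
      rw [aeval_C, Algebra.algebraMap_eq_smul_one]
    have h2 : nf (r • (1 : Net k 2)) = C r := by
      simp [nf]
    rw [h1, h2, sub_self]
    exact zero_mem _
  | add f g hf hg =>
    rw [map_add, nf_add]
    have : f + g - (nf (aeval (gx k) f) + nf (aeval (gx k) g)) =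
      (f - nf (aeval (gx k) f)) + (g - nf (aeval (gx k) g)) := by ring
    rw [this]
    exact add_mem hf hg
  | mul_X f s hf =>
    rw [map_mul, aeval_X', mul_comm (aeval (gx k) f)]
    have : f * X s - nf (gx k s * aeval (gx k) f) = X s * (f - nf (aeval (gx k) f)) +
      (nf (aeval (gx k) f) * X s - nf (gx k s * aeval (gx k) f)) := by ring
    rw [this]
    exact add_mem (Ideal.mul_mem_left _ _ hf) (nf_mul _ _)

theorem span_quad : Ideal.span (Set.range (quad k)) =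
    RingHom.ker (aeval (gx k) : MvPolynomial (Fin 2 × Fin 2) k →ₐ[k] Net k 2) := by
  apply le_antisymm
  · rw [Ideal.span_le]
    rintro _ ⟨g, rfl⟩
    exact quad_mem g
  · intro f hf
    have h := sub_nf_mem f
    rw [RingHom.mem_ker] at hf
    rw [hf, nf_zero, sub_zero] at h
    exact h

/-- the socle basis -/
noncomputable def wb (k : Type u) [Field k] (w : Fin 3) : Net k 2 := Net.bas k 2 (Sum.inr (Sum.inr w))

theorem gx_gx_0 : gx k (0, 0) * gx k (0, 0) = wb k 0 := by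
  rw [gx_mul, gx_fst, gx_snd1, zero_smul, Q_00, wb]
  apply Net.ext'
  · rw [Net.bas_W_fst]
  · rw [Net.bas_W_snd1]
  · rw [Net.bas_W_snd2]
    ext w; fin_cases w <;> simp

theorem gx_gx_1 : gx k (0, 0) * gx k (0, 1) = wb k 1 := by
  rw [gx_mul, gx_fst, gx_snd1, zero_smul, Q_00, wb]
  apply Net.ext'
  · rw [Net.bas_W_fst]
  · rw [Net.bas_W_snd1]
  · rw [Net.bas_W_snd2]
    ext w; fin_cases w <;> simp

theorem gx_gx_2 : gx k (0, 1) * gx k (0, 1) = wb k 2 := by
  rw [gx_mul, gx_fst, gx_snd1, zero_smul, Q_01, wb]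
  apply Net.ext'
  · rw [Net.bas_W_fst]
  · rw [Net.bas_W_snd1]
  · rw [Net.bas_W_snd2]
    ext w; fin_cases w <;> simp

theorem aeval_nf (a : Net k 2) : aeval (gx k) (nf a) = a := by
  have h : ∀ s, (gx k s).2.2 = 0 := fun s => by rw [gx, Net.bas_V_snd2]
  have w1 : ∀ w, (wb k w).1 = 0 := fun w => by rw [wb, Net.bas_W_fst]
  have w2 : ∀ w, (wb k w).2.1 = 0 := fun w => by rw [wb, Net.bas_W_snd1]
  have w3 : ∀ w, (wb k w).2.2 = Pi.single w 1 := fun w => by rw [wb, Net.bas_W_snd2]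
  simp only [nf, map_add, map_mul, aeval_C, aeval_X', gx_gx_0, gx_gx_1, gx_gx_2,
    Algebra.algebraMap_eq_smul_one, smul_mul_assoc, one_mul]
  apply Net.ext'
  · simp [Net.add_fst, gx_fst, w1]
  · ext ⟨i, p⟩
    fin_cases i <;> fin_cases p <;> simp [Net.add_snd1, gx_snd1, w2]
  · ext w
    fin_cases w <;> simp [Net.add_snd2, h, w3]

theorem adjoin_gx : Algebra.adjoin k (Set.range (gx k)) = ⊤ := by
  rw [Algebra.adjoin_range_eq_range_aeval, eq_top_iff]
  intro a _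
  exact ⟨nf a, aeval_nf a⟩

/-- the values of a tangent vector on the quadrics -/
noncomputable def val (ψ : tangent (k := k) (gx k)) (g : Fin 3 ⊕ (Fin 2 × Fin 2)) : Net k 2 :=
  ψ.1 ⟨quad k g, quad_mem g⟩

theorem val_syz2 (ψ : tangent (k := k) (gx k)) (g g' : Fin 3 ⊕ (Fin 2 × Fin 2))
    (s s' : Fin 2 × Fin 2) (h : (X s : MvPolynomial (Fin 2 × Fin 2) k) * quad k g = X s' * quad k g') :
    gx k s * val ψ g = gx k s' * val ψ g' := by
  have h1 := ψ.2 (X s) ⟨quad k g, quad_mem g⟩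
  have h2 := ψ.2 (X s') ⟨quad k g', quad_mem g'⟩
  rw [aeval_X'] at h1 h2
  rw [val, val, ← h1, ← h2]
  congr 1
  exact Subtype.ext h

theorem val_syz4 (ψ : tangent (k := k) (gx k)) (g1 g2 g3 g4 : Fin 3 ⊕ (Fin 2 × Fin 2))
    (s1 s2 s3 s4 : Fin 2 × Fin 2)
    (h : (X s1 : MvPolynomial (Fin 2 × Fin 2) k) * quad k g1 + X s2 * quad k g2 =
      X s3 * quad k g3 + X s4 * quad k g4) :
    gx k s1 * val ψ g1 + gx k s2 * val ψ g2 = gx k s3 * val ψ g3 + gx k s4 * val ψ g4 := by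
  have h1 := ψ.2 (X s1) ⟨quad k g1, quad_mem g1⟩
  have h2 := ψ.2 (X s2) ⟨quad k g2, quad_mem g2⟩
  have h3 := ψ.2 (X s3) ⟨quad k g3, quad_mem g3⟩
  have h4 := ψ.2 (X s4) ⟨quad k g4, quad_mem g4⟩
  rw [aeval_X'] at h1 h2 h3 h4
  rw [val, val, val, val, ← h1, ← h2, ← h3, ← h4, ← map_add, ← map_add]
  congr 1
  exact Subtype.ext h

theorem cmp0 (a b : Net k 2) (h : gx k (0, 1) * a = gx k (0, 0) * b) :
    a.1 = 0 ∧ b.1 = 0 ∧ b.2.1 (0, 0) = 0 ∧ a.2.1 (0, 0) = b.2.1 (0, 1) ∧ a.2.1 (0, 1) = 0 := by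
  rw [gx_mul, gx_mul, Q_01, Q_00] at h
  have h1 := congrArg (fun z : Net k 2 => z.2.1) h
  have h2 := congrArg (fun z : Net k 2 => z.2.2) h
  refine ⟨?_, ?_, ?_, ?_, ?_⟩
  · simpa using congrFun h1 (0, 1)
  · simpa using (congrFun h1 (0, 0)).symm
  · simpa using (congrFun h2 0).symm
  · simpa using congrFun h2 1
  · simpa using congrFun h2 2

theorem cmp1 (a b : Net k 2) (h : gx k (1, 1) * a = gx k (1, 0) * b) :
    a.1 = 0 ∧ b.1 = 0 ∧ b.2.1 (1, 0) = 0 ∧ a.2.1 (1, 0) = b.2.1 (1, 1) ∧ a.2.1 (1, 1) = 0 := by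
  rw [gx_mul, gx_mul, Q_11, Q_10] at h
  have h1 := congrArg (fun z : Net k 2 => z.2.1) h
  have h2 := congrArg (fun z : Net k 2 => z.2.2) h
  refine ⟨?_, ?_, ?_, ?_, ?_⟩
  · simpa using congrFun h1 (1, 1)
  · simpa using (congrFun h1 (1, 0)).symm
  · simpa using (congrFun h2 0).symm
  · simpa using congrFun h2 1
  · simpa using congrFun h2 2

theorem eq_zero' (a : Net k 2) (h1 : a.1 = 0) (h2 : a.2.1 (0, 0) = 0) (h3 : a.2.1 (0, 1) = 0)
    (h4 : a.2.1 (1, 0) = 0) (h5 : a.2.1 (1, 1) = 0) (h6 : a.2.2 = 0) : a = 0 := by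
  apply Net.ext'
  · exact h1
  · ext ⟨i, p⟩
    fin_cases i <;> fin_cases p
    · exact h2
    · exact h3
    · exact h4
    · exact h5
  · exact h6

/-- The dimension of the tangent space of the Hilbert scheme at the example is at most `25`. -/
theorem finrank_tangent_le : finrank k (tangent (k := k) (gx k)) ≤ 25 := by
  classical
  let Λ : tangent (k := k) (gx k) →ₗ[k] ((Fin 3 ⊕ (Fin 2 × Fin 2)) → (Fin 3 → k)) × (Fin 4 → k) :=
    { toFun := fun ψ => (fun g => (val ψ g).2.2,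
        ![(val ψ (Sum.inr (0, 0))).2.1 (0, 0), (val ψ (Sum.inr (0, 1))).2.1 (0, 0),
          (val ψ (Sum.inr (0, 0))).2.1 (1, 0), (val ψ (Sum.inr (1, 0))).2.1 (1, 0)])
      map_add' := by
        intro ψ φ
        apply Prod.ext
        · rfl
        · ext i
          fin_cases i <;> rfl
      map_smul' := by
        intro c ψ
        apply Prod.ext
        · rfl
        · ext i
          fin_cases i <;> rfl }
  have hinj : Function.Injective Λ := by
    rw [injective_iff_map_eq_zero]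
    intro ψ hψ
    have hw : ∀ g, (val ψ g).2.2 = 0 := fun g => congrFun (congrArg Prod.fst hψ) g
    have z0 : (val ψ (Sum.inr (0, 0))).2.1 (0, 0) = 0 := congrFun (congrArg Prod.snd hψ) 0
    have z1 : (val ψ (Sum.inr (0, 1))).2.1 (0, 0) = 0 := congrFun (congrArg Prod.snd hψ) 1
    have z2 : (val ψ (Sum.inr (0, 0))).2.1 (1, 0) = 0 := congrFun (congrArg Prod.snd hψ) 2
    have z3 : (val ψ (Sum.inr (1, 0))).2.1 (1, 0) = 0 := congrFun (congrArg Prod.snd hψ) 3
    have e0 : quad k (Sum.inl 0) = X (0, 0) * X (0, 0) - X (1, 0) * X (1, 0) := rfl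
    have e1 : quad k (Sum.inl 1) = X (0, 0) * X (0, 1) - X (1, 0) * X (1, 1) := rfl
    have e2 : quad k (Sum.inl 2) = X (0, 1) * X (0, 1) - X (1, 1) * X (1, 1) := rfl
    have e3 : ∀ p q, quad k (Sum.inr (p, q)) = X (0, p) * X (1, q) := fun p q => rfl
    -- syzygies of the products
    obtain ⟨a1, a2, a3, a4, a5⟩ := cmp0 _ _ (val_syz2 ψ (Sum.inr (0, 0)) (Sum.inr (1, 0)) (0, 1) (0, 0)
      (by rw [e3, e3]; ring))
    obtain ⟨b1, b2, b3, b4, b5⟩ := cmp0 _ _ (val_syz2 ψ (Sum.inr (0, 1)) (Sum.inr (1, 1)) (0, 1) (0, 0)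
      (by rw [e3, e3]; ring))
    obtain ⟨c1, c2, c3, c4, c5⟩ := cmp1 _ _ (val_syz2 ψ (Sum.inr (0, 0)) (Sum.inr (0, 1)) (1, 1) (1, 0)
      (by rw [e3, e3]; ring))
    obtain ⟨d1, d2, d3, d4, d5⟩ := cmp1 _ _ (val_syz2 ψ (Sum.inr (1, 0)) (Sum.inr (1, 1)) (1, 1) (1, 0)
      (by rw [e3, e3]; ring))
    have v00 : val ψ (Sum.inr (0, 0)) = 0 := eq_zero' _ a1 z0 a5 z2 c5 (hw _)
    have v01 : val ψ (Sum.inr (0, 1)) = 0 := eq_zero' _ b1 z1 b5 c3 (c4.symm.trans z2) (hw _)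
    have v10 : val ψ (Sum.inr (1, 0)) = 0 := eq_zero' _ a2 a3 (a4.symm.trans z0) z3 d5 (hw _)
    have v11 : val ψ (Sum.inr (1, 1)) = 0 :=
      eq_zero' _ b2 b3 (b4.symm.trans z1) d3 (d4.symm.trans z3) (hw _)
    have r3 := val_syz4 ψ (Sum.inl 0) (Sum.inr (1, 0)) (Sum.inl 1) (Sum.inr (0, 1))
      (1, 1) (0, 0) (1, 0) (0, 0) (by rw [e0, e1, e3, e3]; ring)
    have r4 := val_syz4 ψ (Sum.inl 1) (Sum.inr (1, 0)) (Sum.inl 2) (Sum.inr (0, 1))
      (1, 1) (0, 1) (1, 0) (0, 1) (by rw [e1, e2, e3, e3]; ring)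
    have r5 := val_syz4 ψ (Sum.inl 0) (Sum.inr (1, 0)) (Sum.inl 1) (Sum.inr (0, 1))
      (0, 1) (1, 0) (0, 0) (1, 0) (by rw [e0, e1, e3, e3]; ring)
    have r6 := val_syz4 ψ (Sum.inl 1) (Sum.inr (1, 0)) (Sum.inl 2) (Sum.inr (0, 1))
      (0, 1) (1, 1) (0, 0) (1, 1) (by rw [e1, e2, e3, e3]; ring)
    rw [v10, v01] at r3 r4 r5 r6
    simp only [mul_zero, add_zero] at r3 r4 r5 r6
    obtain ⟨f1, f2, f3, f4, f5⟩ := cmp1 _ _ r3
    obtain ⟨g1, g2, g3, g4, g5⟩ := cmp1 _ _ r4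
    obtain ⟨h1, h2, h3, h4, h5⟩ := cmp0 _ _ r5
    obtain ⟨i1, i2, i3, i4, i5⟩ := cmp0 _ _ r6
    have s0 : val ψ (Sum.inl 0) = 0 := eq_zero' _ f1 (h4.trans i5) h5 (f4.trans g5) f5 (hw _)
    have s1 : val ψ (Sum.inl 1) = 0 := eq_zero' _ f2 h3 i5 f3 g5 (hw _)
    have s2 : val ψ (Sum.inl 2) = 0 := eq_zero' _ g2 i3 (i4.symm.trans h3) g3 (g4.symm.trans f3) (hw _)
    apply Subtype.ext
    refine tangent_ext span_quad ψ.2 ?_
    rintro _ ⟨g, rfl⟩
    change val ψ g = 0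
    rcases g with m | ⟨p, q⟩
    · fin_cases m
      · exact s0
      · exact s1
      · exact s2
    · fin_cases p <;> fin_cases q
      · exact v00
      · exact v01
      · exact v10
      · exact v11
  have h := LinearMap.finrank_le_finrank_of_injective hinj
  rw [finrank_prod, finrank_pi_fintype] at h
  simpa using h

/-- The socle of the example has dimension at most `3`. -/
theorem finrank_socle_le : finrank k (socle k (Net k 2)) ≤ 3 := by
  let F : socle k (Net k 2) →ₗ[k] (Fin 3 → k) :=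
    { toFun := fun a => (a : Net k 2).2.2
      map_add' := by intro a b; rfl
      map_smul' := by intro c a; rfl }
  have hF : Function.Injective F := by
    rw [injective_iff_map_eq_zero]
    intro a ha
    apply Subtype.ext
    have hnil : ∀ s, IsNilpotent (gx k s) := by
      intro s
      refine ⟨3, ?_⟩
      have h1 : gx k s ^ 3 = gx k s * (gx k s * gx k s) := by ring
      have h2 : (gx k s * gx k s).1 = 0 := by rw [Net.mul_fst, gx_fst, mul_zero]
      have h3 : (gx k s * gx k s).2.1 = 0 := by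
        rw [Net.mul_snd1, gx_fst, zero_smul, add_zero]
      rw [h1, gx_mul s (gx k s * gx k s), h2, h3, zero_smul, Net.Q_zero]
      rfl
    have h1 : ∀ s, gx k s * (a : Net k 2) = 0 := fun s => a.2 _ (hnil s)
    have h2 : gx k (0, 1) * (a : Net k 2) = gx k (0, 0) * (a : Net k 2) := by rw [h1, h1]
    have h3 : gx k (1, 1) * (a : Net k 2) = gx k (1, 0) * (a : Net k 2) := by rw [h1, h1]
    obtain ⟨a1, a2, a3, a4, a5⟩ := cmp0 _ _ h2
    obtain ⟨b1, b2, b3, b4, b5⟩ := cmp1 _ _ h3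
    exact eq_zero' _ a1 a3 a5 b3 b5 ha
  have h := LinearMap.finrank_le_finrank_of_injective hF
  simpa using h

end Pool.Agent.H12.TG
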