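import Pool.Agent.H12.TG.Basic

open Module

namespace Pool.Agent.H12.TG

section exact

variable {k : Type*} [Field k] {ι : Type*} [Finite ι]

theorem finrank_Z1_exact_right {V U' U U'' : Type*} [AddCommGroup V] [Module k V] [AddCommGroup U']
    [Module k U'] [AddCommGroup U] [Module k U] [AddCommGroup U''] [Module k U'']
    [FiniteDimensional k V] [FiniteDimensional k U'] [FiniteDimensional k U]
    [FiniteDimensional k U'']
    (X : ι → V →ₗ[k] V) (Y' : ι → U' →ₗ[k] U') (Y : ι → U →ₗ[k] U) (Y'' : ι → U'' →ₗ[k] U'')
    (i : U' →ₗ[k] U) (p : U →ₗ[k] U'') (hi : Function.Injective i)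
    (hip : LinearMap.ker p = LinearMap.range i)
    (hi' : ∀ j u, i (Y' j u) = Y j (i u)) (hp' : ∀ j u, p (Y j u) = Y'' j (p u)) :
    finrank k (Z1 (ad X Y)) ≤ finrank k (Z1 (ad X Y')) + finrank k (Z1 (ad X Y'')) := by
  let G : Z1 (ad X Y) →ₗ[k] Z1 (ad X Y'') :=
    { toFun := fun z => ⟨fun j => p ∘ₗ (z : ι → V →ₗ[k] U) j, by
        intro a b
        ext v
        have h := congrArg (fun f : V →ₗ[k] U => p (f v)) (z.2 a b)
        simp only [ad_apply, LinearMap.sub_apply, LinearMap.comp_apply, map_sub, hp'] at h ⊢
        exact h⟩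
      map_add' := by
        intro z w
        apply Subtype.ext
        funext j
        simp [LinearMap.comp_add]
      map_smul' := by
        intro c z
        apply Subtype.ext
        funext j
        simp [LinearMap.comp_smul] }
  let H : Z1 (ad X Y') →ₗ[k] Z1 (ad X Y) :=
    { toFun := fun z => ⟨fun j => i ∘ₗ (z : ι → V →ₗ[k] U') j, by
        intro a b
        ext v
        have h := congrArg (fun f : V →ₗ[k] U' => i (f v)) (z.2 a b)
        simp only [ad_apply, LinearMap.sub_apply, LinearMap.comp_apply, map_sub, hi'] at h ⊢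
        exact h⟩
      map_add' := by
        intro z w
        apply Subtype.ext
        funext j
        simp [LinearMap.comp_add]
      map_smul' := by
        intro c z
        apply Subtype.ext
        funext j
        simp [LinearMap.comp_smul] }
  obtain ⟨r, hr⟩ := LinearMap.exists_leftInverse_of_injective i (LinearMap.ker_eq_bot.mpr hi)
  have hr' : ∀ u, r (i u) = u := fun u => LinearMap.congr_fun hr u
  have hker : LinearMap.ker G ≤ LinearMap.range H := by
    intro z hz
    rw [LinearMap.mem_ker] at hz
    have h1 : ∀ j v, p ((z : ι → V →ₗ[k] U) j v) = 0 := fun j v =>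
      LinearMap.congr_fun (congrFun (congrArg Subtype.val hz) j) v
    have h2 : ∀ j v, i (r ((z : ι → V →ₗ[k] U) j v)) = (z : ι → V →ₗ[k] U) j v := by
      intro j v
      have : (z : ι → V →ₗ[k] U) j v ∈ LinearMap.range i := by
        rw [← hip]; exact h1 j v
      obtain ⟨u, hu⟩ := this
      rw [← hu, hr']
    refine ⟨⟨fun j => r ∘ₗ (z : ι → V →ₗ[k] U) j, ?_⟩, ?_⟩
    · intro a b
      ext v
      apply hi
      have h := LinearMap.congr_fun (z.2 a b) v
      simp only [ad_apply, LinearMap.sub_apply, LinearMap.comp_apply, map_sub, hi', h2] at h ⊢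
      exact h
    · apply Subtype.ext
      funext j
      ext v
      exact h2 j v
  have h3 := LinearMap.finrank_range_add_finrank_ker G
  have h4 := Submodule.finrank_mono hker
  have h5 := LinearMap.finrank_range_le H
  have h6 : finrank k (LinearMap.range G) ≤ _ := Submodule.finrank_le _
  omega

theorem finrank_Z1_exact_left {V' V V'' U : Type*} [AddCommGroup V'] [Module k V'] [AddCommGroup V]
    [Module k V] [AddCommGroup V''] [Module k V''] [AddCommGroup U] [Module k U]
    [FiniteDimensional k V'] [FiniteDimensional k V] [FiniteDimensional k V'']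
    [FiniteDimensional k U]
    (X' : ι → V' →ₗ[k] V') (X : ι → V →ₗ[k] V) (X'' : ι → V'' →ₗ[k] V'') (Y : ι → U →ₗ[k] U)
    (i : V' →ₗ[k] V) (p : V →ₗ[k] V'') (hp : Function.Surjective p)
    (hip : LinearMap.ker p = LinearMap.range i)
    (hi' : ∀ j u, i (X' j u) = X j (i u)) (hp' : ∀ j u, p (X j u) = X'' j (p u)) :
    finrank k (Z1 (ad X Y)) ≤ finrank k (Z1 (ad X' Y)) + finrank k (Z1 (ad X'' Y)) := by
  let G : Z1 (ad X Y) →ₗ[k] Z1 (ad X' Y) :=
    { toFun := fun z => ⟨fun j => (z : ι → V →ₗ[k] U) j ∘ₗ i, by
        intro a b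
        ext v
        have h := LinearMap.congr_fun (z.2 a b) (i v)
        simp only [ad_apply, LinearMap.sub_apply, LinearMap.comp_apply, hi'] at h ⊢
        exact h⟩
      map_add' := by
        intro z w
        apply Subtype.ext
        funext j
        simp [LinearMap.add_comp]
      map_smul' := by
        intro c z
        apply Subtype.ext
        funext j
        simp [LinearMap.smul_comp] }
  let H : Z1 (ad X'' Y) →ₗ[k] Z1 (ad X Y) :=
    { toFun := fun z => ⟨fun j => (z : ι → V'' →ₗ[k] U) j ∘ₗ p, by
        intro a b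
        ext v
        have h := LinearMap.congr_fun (z.2 a b) (p v)
        simp only [ad_apply, LinearMap.sub_apply, LinearMap.comp_apply, hp'] at h ⊢
        exact h⟩
      map_add' := by
        intro z w
        apply Subtype.ext
        funext j
        simp [LinearMap.add_comp]
      map_smul' := by
        intro c z
        apply Subtype.ext
        funext j
        simp [LinearMap.smul_comp] }
  obtain ⟨s, hs⟩ := LinearMap.exists_rightInverse_of_surjective p (LinearMap.range_eq_top.mpr hp)
  have hs' : ∀ u, p (s u) = u := fun u => LinearMap.congr_fun hs u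
  have hker : LinearMap.ker G ≤ LinearMap.range H := by
    intro z hz
    rw [LinearMap.mem_ker] at hz
    have h1 : ∀ j v, (z : ι → V →ₗ[k] U) j (i v) = 0 := fun j v =>
      LinearMap.congr_fun (congrFun (congrArg Subtype.val hz) j) v
    have h2 : ∀ j v, (z : ι → V →ₗ[k] U) j (s (p v)) = (z : ι → V →ₗ[k] U) j v := by
      intro j v
      have : s (p v) - v ∈ LinearMap.range i := by
        rw [← hip, LinearMap.mem_ker, map_sub, hs', sub_self]
      obtain ⟨u, hu⟩ := this
      have h3 := h1 j u
      rw [hu, map_sub, sub_eq_zero] at h3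
      exact h3
    refine ⟨⟨fun j => (z : ι → V →ₗ[k] U) j ∘ₗ s, ?_⟩, ?_⟩
    · intro a b
      ext v
      obtain ⟨v, rfl⟩ := hp v
      have h := LinearMap.congr_fun (z.2 a b) v
      simp only [ad_apply, LinearMap.sub_apply, LinearMap.comp_apply, ← hp', h2] at h ⊢
      exact h
    · apply Subtype.ext
      funext j
      ext v
      exact h2 j v
  have h3 := LinearMap.finrank_range_add_finrank_ker G
  have h4 := Submodule.finrank_mono hker
  have h5 := LinearMap.finrank_range_le H
  have h6 : finrank k (LinearMap.range G) ≤ _ := Submodule.finrank_le _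
  omega

end exact

section flag

variable {k : Type*} [Field k] [IsAlgClosed k] {ι : Type*} [Finite ι]

omit [Finite ι] in
/-- a common eigenvector -/
theorem exists_common_eigenvector {K : Type*} [AddCommGroup K] [Module k K] [FiniteDimensional k K]
    [Nontrivial K] (X : ι → K →ₗ[k] K) (hX : ∀ i j v, X i (X j v) = X j (X i v)) :
    ∃ (χ : ι → k) (v : K), v ≠ 0 ∧ ∀ i, X i v = χ i • v := by
  classical
  let P : ℕ → Prop := fun n => ∃ W : Submodule k K, W ≠ ⊥ ∧ (∀ i, ∀ w ∈ W, X i w ∈ W) ∧ finrank k W = n
  have hP : ∃ n, P n := ⟨_, ⊤, top_ne_bot, fun i w _ => trivial, rfl⟩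
  obtain ⟨W, hW0, hWX, hWn⟩ := Nat.find_spec hP
  have hmin : ∀ W' : Submodule k K, W' ≠ ⊥ → (∀ i, ∀ w ∈ W', X i w ∈ W') → W' ≤ W → W' = W := by
    intro W' h0 h1 h2
    apply Submodule.eq_of_le_of_finrank_le h2
    rw [hWn]
    exact Nat.find_min' hP ⟨W', h0, h1, rfl⟩
  have hW : Nontrivial W := (Submodule.nontrivial_iff_ne_bot).mpr hW0
  have key : ∀ i, ∃ c : k, ∀ w ∈ W, X i w = c • w := by
    intro i
    let f : W →ₗ[k] W := (X i).restrict (hWX i)
    obtain ⟨c, hc⟩ := Module.End.exists_eigenvalue f
    obtain ⟨w, hw⟩ := hc.exists_hasEigenvector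
    refine ⟨c, ?_⟩
    have h1 : W ⊓ Module.End.eigenspace (X i) c = W := by
      apply hmin
      · intro h
        have h2 : (w : K) ∈ W ⊓ Module.End.eigenspace (X i) c := by
          refine ⟨w.2, Module.End.mem_eigenspace_iff.mpr ?_⟩
          have := hw.apply_eq_smul
          exact congrArg Subtype.val this
        rw [h, Submodule.mem_bot] at h2
        exact hw.2 (Subtype.ext h2)
      · intro j w hw
        refine ⟨hWX j w hw.1, Module.End.mem_eigenspace_iff.mpr ?_⟩
        have h3 := Module.End.mem_eigenspace_iff.mp hw.2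
        rw [hX, h3, map_smul]
      · exact inf_le_left
    intro w hw
    rw [← h1] at hw
    exact Module.End.mem_eigenspace_iff.mp hw.2
  choose χ hχ using key
  obtain ⟨v, hv, hv0⟩ := Submodule.exists_mem_ne_zero_of_ne_bot hW0
  exact ⟨χ, v, hv0, fun i => hχ i v hv⟩

/-- scalar operators on the one-dimensional space -/
def sc (χ : ι → k) : ι → k →ₗ[k] k := fun i => χ i • LinearMap.id

omit [IsAlgClosed k] [Finite ι] in
@[simp] theorem sc_apply (χ : ι → k) (i : ι) (c : k) : sc χ i c = χ i * c := rfl

theorem finrank_Z1_flag {U : Type*} [AddCommGroup U] [Module k U] [FiniteDimensional k U]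
    (Y : ι → U →ₗ[k] U) (C : ℕ) (hl : ∀ χ : ι → k, finrank k (Z1 (ad (sc χ) Y)) ≤ C) :
    ∀ (n : ℕ) (K : Type*) [AddCommGroup K] [Module k K] [FiniteDimensional k K]
      (X : ι → K →ₗ[k] K), (∀ i j v, X i (X j v) = X j (X i v)) → finrank k K = n →
      finrank k (Z1 (ad X Y)) ≤ n * C := by
  intro n
  induction n with
  | zero =>
    intro K _ _ _ X hX hn
    rw [zero_mul]
    have : Subsingleton K := Module.finrank_zero_iff.mp hn
    have : Subsingleton (K →ₗ[k] U) := ⟨fun f g => LinearMap.ext fun v => by
      rw [Subsingleton.elim v 0, map_zero, map_zero]⟩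
    have : Subsingleton (Z1 (ad X Y)) := inferInstance
    exact (Module.finrank_zero_of_subsingleton).le
  | succ n ih =>
    intro K _ _ _ X hX hn
    have : Nontrivial K := Module.nontrivial_of_finrank_pos (R := k) (by omega)
    obtain ⟨χ, v, hv0, hv⟩ := exists_common_eigenvector X hX
    let W : Submodule k K := Submodule.span k {v}
    have hWX : ∀ i, W ≤ W.comap (X i) := by
      intro i
      rw [Submodule.span_le, Set.singleton_subset_iff, SetLike.mem_coe, Submodule.mem_comap, hv]
      exact Submodule.smul_mem _ _ (Submodule.mem_span_singleton_self v)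
    have h1 := finrank_Z1_exact_left (sc χ) X (fun i => W.mapQ W (X i) (hWX i)) Y
      (LinearMap.toSpanSingleton k K v) W.mkQ W.mkQ_surjective (by
        rw [Submodule.ker_mkQ]
        exact LinearMap.span_singleton_eq_range k K v) (by
        intro j c
        simp [hv, smul_smul, mul_comm]) (by
        intro j u
        rfl)
    have h2 : finrank k (K ⧸ W) = n := by
      have h3 := Submodule.finrank_quotient_add_finrank W
      rw [finrank_span_singleton hv0, hn] at h3
      omega
    have h4 := ih (K ⧸ W) (fun i => W.mapQ W (X i) (hWX i)) (by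
      intro i j u
      obtain ⟨u, rfl⟩ := W.mkQ_surjective u
      have := hX i j u
      simp only [Submodule.mkQ_apply, Submodule.mapQ_apply, this]) h2
    have h5 := hl χ
    rw [Nat.succ_mul]
    omega

theorem finrank_Z1_flag_right {V : Type*} [AddCommGroup V] [Module k V] [FiniteDimensional k V]
    (X : ι → V →ₗ[k] V) (C : ℕ) (hl : ∀ χ : ι → k, finrank k (Z1 (ad X (sc χ))) ≤ C) :
    ∀ (n : ℕ) (K : Type*) [AddCommGroup K] [Module k K] [FiniteDimensional k K]
      (Y : ι → K →ₗ[k] K), (∀ i j v, Y i (Y j v) = Y j (Y i v)) → finrank k K = n →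
      finrank k (Z1 (ad X Y)) ≤ n * C := by
  intro n
  induction n with
  | zero =>
    intro K _ _ _ Y hY hn
    rw [zero_mul]
    have : Subsingleton K := Module.finrank_zero_iff.mp hn
    have : Subsingleton (V →ₗ[k] K) := ⟨fun f g => LinearMap.ext fun v =>
      Subsingleton.elim _ _⟩
    have : Subsingleton (Z1 (ad X Y)) := inferInstance
    exact (Module.finrank_zero_of_subsingleton).le
  | succ n ih =>
    intro K _ _ _ Y hY hn
    have : Nontrivial K := Module.nontrivial_of_finrank_pos (R := k) (by omega)
    obtain ⟨χ, v, hv0, hv⟩ := exists_common_eigenvector Y hY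
    let W : Submodule k K := Submodule.span k {v}
    have hWX : ∀ i, W ≤ W.comap (Y i) := by
      intro i
      rw [Submodule.span_le, Set.singleton_subset_iff, SetLike.mem_coe, Submodule.mem_comap, hv]
      exact Submodule.smul_mem _ _ (Submodule.mem_span_singleton_self v)
    have h1 := finrank_Z1_exact_right X (sc χ) Y (fun i => W.mapQ W (Y i) (hWX i))
      (LinearMap.toSpanSingleton k K v) W.mkQ (by
        rw [← LinearMap.ker_eq_bot]
        exact LinearMap.ker_toSpanSingleton k hv0) (by
        rw [Submodule.ker_mkQ]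
        exact LinearMap.span_singleton_eq_range k K v) (by
        intro j c
        simp [hv, smul_smul, mul_comm]) (by
        intro j u
        rfl)
    have h2 : finrank k (K ⧸ W) = n := by
      have h3 := Submodule.finrank_quotient_add_finrank W
      rw [finrank_span_singleton hv0, hn] at h3
      omega
    have h4 := ih (K ⧸ W) (fun i => W.mapQ W (Y i) (hWX i)) (by
      intro i j u
      obtain ⟨u, rfl⟩ := W.mkQ_surjective u
      have := hY i j u
      simp only [Submodule.mkQ_apply, Submodule.mapQ_apply, this]) h2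
    have h5 := hl χ
    rw [Nat.succ_mul]
    omega

end flag

end Pool.Agent.H12.TG
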