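import Pool.Agent.H12.TG.Basic

open Module TensorProduct

namespace Pool.Agent.H12.TG

section vector

variable {k : Type*} [Field k] {ι' J : Type*} [Fintype J]

/-- vector valued common kernel of matrices -/
def vH0 (E : Type*) [AddCommGroup E] [Module k E] (τ : ι' → Matrix J J k) :
    Submodule k (J → E) where
  carrier := {φ | ∀ j γ, ∑ β, τ j γ β • φ β = 0}
  add_mem' := by
    intro φ ψ hφ hψ j γ
    simp only [Pi.add_apply, smul_add, Finset.sum_add_distrib]
    rw [hφ j γ, hψ j γ, add_zero]
  zero_mem' := by intro j γ; simp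
  smul_mem' := by
    intro c φ hφ j γ
    simp only [Pi.smul_apply]
    rw [← smul_zero c, ← hφ j γ, Finset.smul_sum]
    exact Finset.sum_congr rfl fun β _ => smul_comm _ _ _

/-- vector valued cocycles of matrices -/
def vZ1 (E : Type*) [AddCommGroup E] [Module k E] (τ : ι' → Matrix J J k) :
    Submodule k (ι' → J → E) where
  carrier := {w | ∀ j l γ, ∑ β, τ j γ β • w l β = ∑ β, τ l γ β • w j β}
  add_mem' := by
    intro φ ψ hφ hψ j l γ
    simp only [Pi.add_apply, smul_add, Finset.sum_add_distrib]
    rw [hφ j l γ, hψ j l γ]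
  zero_mem' := by intro j l γ; simp
  smul_mem' := by
    intro c φ hφ j l γ
    simp only [Pi.smul_apply]
    have := congrArg (fun x => c • x) (hφ j l γ)
    simp only [Finset.smul_sum] at this
    rw [Finset.sum_congr rfl fun β _ => smul_comm (τ j γ β) c (φ l β),
      Finset.sum_congr rfl fun β _ => smul_comm (τ l γ β) c (φ j β)]
    exact this

variable [DecidableEq J]

theorem finrank_vH0_le (E : Type*) [AddCommGroup E] [Module k E] [FiniteDimensional k E]
    (τ : ι' → Matrix J J k) :
    finrank k (vH0 E τ) ≤ finrank k E * finrank k (H0 fun j => Matrix.toLin' (τ j)) := by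
  let b := Module.finBasis k E
  let F : vH0 E τ →ₗ[k] (Fin (finrank k E) → H0 fun j => Matrix.toLin' (τ j)) :=
    { toFun := fun φ a => ⟨fun β => b.coord a ((φ : J → E) β), by
        intro j
        ext γ
        have h := congrArg (b.coord a) (φ.2 j γ)
        rw [map_sum, map_zero] at h
        rw [Matrix.toLin'_apply, Pi.zero_apply, ← h]
        simp only [Matrix.mulVec, dotProduct, map_smul, smul_eq_mul]⟩
      map_add' := by intro φ ψ; ext; simp
      map_smul' := by intro c φ; ext; simp }
  have hF : Function.Injective F := by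
    rw [injective_iff_map_eq_zero]
    intro φ hφ
    apply Subtype.ext
    funext β
    apply b.repr.injective
    ext a
    have := congrFun (congrArg Subtype.val (congrFun hφ a)) β
    simpa [F] using this
  have h := LinearMap.finrank_le_finrank_of_injective hF
  rw [Module.finrank_pi_fintype] at h
  simpa using h

theorem finrank_vZ1_le [Finite ι'] (E : Type*) [AddCommGroup E] [Module k E]
    [FiniteDimensional k E] (τ : ι' → Matrix J J k) :
    finrank k (vZ1 E τ) ≤ finrank k E * finrank k (Z1 fun j => Matrix.toLin' (τ j)) := by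
  let b := Module.finBasis k E
  let F : vZ1 E τ →ₗ[k] (Fin (finrank k E) → Z1 fun j => Matrix.toLin' (τ j)) :=
    { toFun := fun w a => ⟨fun l β => b.coord a ((w : ι' → J → E) l β), by
        intro j l
        ext γ
        have h := congrArg (b.coord a) (w.2 j l γ)
        rw [map_sum, map_sum] at h
        rw [Matrix.toLin'_apply, Matrix.toLin'_apply]
        simpa only [Matrix.mulVec, dotProduct, map_smul, smul_eq_mul] using h⟩
      map_add' := by intro φ ψ; ext; simp
      map_smul' := by intro c φ; ext; simp }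
  have hF : Function.Injective F := by
    rw [injective_iff_map_eq_zero]
    intro φ hφ
    apply Subtype.ext
    funext l β
    apply b.repr.injective
    ext a
    have := congrFun (congrFun (congrArg Subtype.val (congrFun hφ a)) l) β
    simpa [F] using this
  have h := LinearMap.finrank_le_finrank_of_injective hF
  rw [Module.finrank_pi_fintype] at h
  simpa using h

end vector

section kunneth

variable {k : Type*} [Field k] {ι ι' J : Type*} [Finite ι] [Finite ι'] [Fintype J] [DecidableEq J]
  {M : Type*} [AddCommGroup M] [Module k M] [FiniteDimensional k M]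

/-- pointwise operators -/
def opL (J : Type*) (T : ι → M →ₗ[k] M) (i : ι) : (J → M) →ₗ[k] (J → M) :=
  LinearMap.pi fun γ => T i ∘ₗ LinearMap.proj γ

/-- matrix operators -/
def opR (M : Type*) [AddCommGroup M] [Module k M] (τ : ι' → Matrix J J k) (j : ι') :
    (J → M) →ₗ[k] (J → M) :=
  LinearMap.pi fun γ => ∑ β, τ j γ β • LinearMap.proj β

omit [Finite ι] [Fintype J] [DecidableEq J] [FiniteDimensional k M] in
@[simp] theorem opL_apply (T : ι → M →ₗ[k] M) (i : ι) (φ : J → M) (γ : J) :
    opL J T i φ γ = T i (φ γ) := rfl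

omit [Finite ι'] [DecidableEq J] [FiniteDimensional k M] in
@[simp] theorem opR_apply (τ : ι' → Matrix J J k) (j : ι') (φ : J → M) (γ : J) :
    opR M τ j φ γ = ∑ β, τ j γ β • φ β := by
  simp [opR, LinearMap.sum_apply]

omit [Finite ι] [Finite ι'] in
theorem finrank_H0_box (T : ι → M →ₗ[k] M) (τ : ι' → Matrix J J k) :
    finrank k (H0 (Sum.elim (opL J T) (opR M τ))) ≤
      finrank k (H0 T) * finrank k (H0 fun j => Matrix.toLin' (τ j)) := by
  refine le_trans ?_ (finrank_vH0_le (H0 T) τ)
  let F : H0 (Sum.elim (opL J T) (opR M τ)) →ₗ[k] vH0 (H0 T) τ :=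
    { toFun := fun φ => ⟨fun β => ⟨(φ : J → M) β, fun i => congrFun (φ.2 (Sum.inl i)) β⟩, by
        intro j γ
        apply Subtype.ext
        have h := congrFun (φ.2 (Sum.inr j)) γ
        simpa using h⟩
      map_add' := by intro φ ψ; rfl
      map_smul' := by intro c φ; rfl }
  refine LinearMap.finrank_le_finrank_of_injective (f := F) ?_
  intro φ ψ h
  apply Subtype.ext
  funext β
  exact congrArg Subtype.val (congrFun (congrArg Subtype.val h) β)

theorem finrank_Z1_box (T : ι → M →ₗ[k] M) (hT : ∀ i j m, T i (T j m) = T j (T i m))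
    (τ : ι' → Matrix J J k) (e : ℕ)
    (he : finrank k (Z1 T) + finrank k (H0 T) ≤ finrank k M + e) :
    finrank k (Z1 (Sum.elim (opL J T) (opR M τ))) + finrank k (H0 T) * Fintype.card J ≤
      finrank k M * Fintype.card J + e * finrank k (H0 fun j => Matrix.toLin' (τ j)) +
        finrank k (H0 T) * finrank k (Z1 fun j => Matrix.toLin' (τ j)) := by
  classical
  -- coboundaries
  let D : M →ₗ[k] (ι → M) := LinearMap.pi T
  have hD : LinearMap.ker D = H0 T := by
    ext m
    rw [LinearMap.mem_ker, mem_H0]
    exact funext_iff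
  let B1 := LinearMap.range D
  have hB1 : finrank k B1 + finrank k (H0 T) = finrank k M := by
    rw [← hD]; exact LinearMap.finrank_range_add_finrank_ker D
  have hB1Z1 : B1 ≤ Z1 T := by
    rintro _ ⟨m, rfl⟩ i j
    exact hT i j m
  let E := (Z1 T).map B1.mkQ
  have hE : finrank k E ≤ e := by
    have h1 := (B1.mkQ.domRestrict (Z1 T)).finrank_range_add_finrank_ker
    have h2 : LinearMap.range (B1.mkQ.domRestrict (Z1 T)) = E := LinearMap.range_domRestrict _ _
    have h3 : finrank k (LinearMap.ker (B1.mkQ.domRestrict (Z1 T))) = finrank k B1 := by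
      rw [LinearMap.ker_domRestrict, Submodule.ker_mkQ]
      exact (Submodule.comapSubtypeEquivOfLe hB1Z1).finrank_eq
    rw [h2, h3] at h1
    omega
  have hz : ∀ (ψ : Z1 (Sum.elim (opL J T) (opR M τ))) (β : J),
      (fun i => (ψ : ι ⊕ ι' → J → M) (Sum.inl i) β) ∈ Z1 T := by
    intro ψ β i j
    exact congrFun (ψ.2 (Sum.inl i) (Sum.inl j)) β
  let Ξ : Z1 (Sum.elim (opL J T) (opR M τ)) →ₗ[k] vH0 E τ :=
    { toFun := fun ψ => ⟨fun β => ⟨B1.mkQ (fun i => (ψ : ι ⊕ ι' → J → M) (Sum.inl i) β),
          Submodule.mem_map_of_mem (hz ψ β)⟩, by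
        intro j γ
        apply Subtype.ext
        simp only [Submodule.coe_sum, Submodule.coe_smul, Submodule.coe_zero, ← map_smul, ← map_sum]
        rw [Submodule.mkQ_apply, Submodule.Quotient.mk_eq_zero]
        refine ⟨(ψ : ι ⊕ ι' → J → M) (Sum.inr j) γ, ?_⟩
        funext i
        have h := congrFun (ψ.2 (Sum.inl i) (Sum.inr j)) γ
        simpa [D] using h⟩
      map_add' := by intro φ ψ; rfl
      map_smul' := by intro c φ; rfl }
  have hΞker : ∀ ψ : LinearMap.ker Ξ, ∀ β,
      (fun i => ((ψ : Z1 (Sum.elim (opL J T) (opR M τ))) : ι ⊕ ι' → J → M) (Sum.inl i) β) ∈ B1 := by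
    intro ψ β
    have h := ψ.2
    rw [LinearMap.mem_ker] at h
    have h2 := congrArg Subtype.val (congrFun (congrArg Subtype.val h) β)
    change B1.mkQ _ = 0 at h2
    rw [Submodule.mkQ_apply, Submodule.Quotient.mk_eq_zero] at h2
    exact h2
  let Θ : LinearMap.ker Ξ →ₗ[k] (J → B1) :=
    { toFun := fun ψ β => ⟨_, hΞker ψ β⟩
      map_add' := by intro φ ψ; rfl
      map_smul' := by intro c φ; rfl }
  have hΘker : ∀ ψ : LinearMap.ker Θ, ∀ i,
      (((ψ : LinearMap.ker Ξ) : Z1 (Sum.elim (opL J T) (opR M τ))) : ι ⊕ ι' → J → M) (Sum.inl i) =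
        0 := by
    intro ψ i
    have h := ψ.2
    rw [LinearMap.mem_ker] at h
    funext β
    exact congrFun (congrArg Subtype.val (congrFun h β)) i
  let Λ : LinearMap.ker Θ →ₗ[k] vZ1 (H0 T) τ :=
    { toFun := fun ψ => ⟨fun j γ =>
          ⟨(((ψ : LinearMap.ker Ξ) : Z1 (Sum.elim (opL J T) (opR M τ))) : ι ⊕ ι' → J → M)
            (Sum.inr j) γ, by
            intro i
            have h := congrFun (((ψ : LinearMap.ker Ξ) : Z1 (Sum.elim (opL J T) (opR M τ))).2
              (Sum.inl i) (Sum.inr j)) γ
            rw [hΘker ψ i] at h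
            simpa using h⟩, by
        intro j l γ
        apply Subtype.ext
        have h := congrFun (((ψ : LinearMap.ker Ξ) : Z1 (Sum.elim (opL J T) (opR M τ))).2
              (Sum.inr j) (Sum.inr l)) γ
        simpa using h⟩
      map_add' := by intro φ ψ; rfl
      map_smul' := by intro c φ; rfl }
  have hΛ : Function.Injective Λ := by
    intro φ ψ h
    apply Subtype.ext
    apply Subtype.ext
    apply Subtype.ext
    funext s
    rcases s with i | j
    · rw [hΘker, hΘker]
    · funext γ
      exact congrArg Subtype.val (congrFun (congrFun (congrArg Subtype.val h) j) γ)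
  have h1 := LinearMap.finrank_range_add_finrank_ker (K := k)
    (V := Z1 (Sum.elim (opL J T) (opR M τ))) (V₂ := vH0 E τ) Ξ
  have h2 : finrank k (LinearMap.range Ξ) ≤ finrank k (vH0 E τ) := Submodule.finrank_le _
  have h3 := finrank_vH0_le E τ
  have h4 := LinearMap.finrank_range_add_finrank_ker (K := k)
    (V := LinearMap.ker Ξ) (V₂ := J → B1) Θ
  have h5 : finrank k (LinearMap.range Θ) ≤ finrank k (J → B1) := Submodule.finrank_le _
  have h6 := LinearMap.finrank_le_finrank_of_injective hΛ
  have h7 := finrank_vZ1_le (H0 T) τ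
  rw [Module.finrank_pi_fintype] at h5
  simp only [Finset.sum_const, Finset.card_univ, smul_eq_mul] at h5
  have h8 : finrank k E * finrank k (H0 fun j => Matrix.toLin' (τ j)) ≤
      e * finrank k (H0 fun j => Matrix.toLin' (τ j)) := Nat.mul_le_mul_right _ hE
  have h9 : finrank k M * Fintype.card J = Fintype.card J * finrank k B1 +
      finrank k (H0 T) * Fintype.card J := by
    rw [← hB1]; ring
  omega

end kunneth

end Pool.Agent.H12.TG
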