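import Pool.Agent.H12.TG.Semi
import Pool.Agent.H12.Defect.Special

open Module TensorProduct

namespace Pool.Agent.H12.TG

open Pool.Agent.H12.Defect

universe u

section diag

variable {Ω : Type*} [Field Ω] {ι : Type*} [Fintype ι]

theorem finrank_W_zero : finrank Ω (Z1 (fun _ : ι => (0 : Ω) • (LinearMap.id : Ω →ₗ[Ω] Ω))) =
    Fintype.card ι := by
  have : Z1 (fun _ : ι => (0 : Ω) • (LinearMap.id : Ω →ₗ[Ω] Ω)) = ⊤ := by
    rw [eq_top_iff]
    intro z _ i j
    simp
  rw [this, finrank_top]
  simp

theorem one_le_finrank_W [Nonempty ι] (d : ι → Ω) :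
    1 ≤ finrank Ω (Z1 (fun i : ι => (d i) • (LinearMap.id : Ω →ₗ[Ω] Ω))) := by
  rw [Nat.one_le_iff_ne_zero]
  intro h
  rw [Submodule.finrank_eq_zero] at h
  have h1 : d ∈ Z1 (fun i : ι => (d i) • (LinearMap.id : Ω →ₗ[Ω] Ω)) := by
    intro i j
    simp [mul_comm]
  rw [h, Submodule.mem_bot] at h1
  have h2 : (fun _ => 1 : ι → Ω) ∈ Z1 (fun i : ι => (d i) • (LinearMap.id : Ω →ₗ[Ω] Ω)) := by
    intro i j
    simp [h1]
  rw [h, Submodule.mem_bot] at h2
  exact one_ne_zero (congrFun h2 (Classical.arbitrary ι))

theorem diag_bound {S : Type*} [CommRing S] [Algebra Ω S] {T : Type*} [Fintype T]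
    (e : S ≃ₐ[Ω] (T → Ω)) [Nonempty ι] (s : ι → S) :
    Fintype.card T * Fintype.card T + Fintype.card ι * Fintype.card T ≤
      finrank Ω (Z1 (ad (fun i => LinearMap.mulLeft Ω (s i)) (fun i => LinearMap.mulLeft Ω (s i)))) +
        Fintype.card T := by
  classical
  have : Module.Finite Ω S := Module.Finite.equiv e.toLinearEquiv.symm
  let ep : T → S := fun p => e.symm (Pi.single p 1)
  have hep : ∀ p s, s * ep p = (e s p) • ep p := by
    intro p s
    apply e.injective
    simp only [ep, map_mul, AlgEquiv.apply_symm_apply, map_smul]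
    ext q
    by_cases hq : q = p
    · subst hq; simp
    · simp [hq]
  let E : T → T → (S →ₗ[Ω] S) := fun p q =>
    (LinearMap.toSpanSingleton Ω S (ep p)) ∘ₗ (LinearMap.proj q) ∘ₗ e.toLinearMap
  have hE : ∀ p q s, E p q s = (e s q) • ep p := by
    intro p q s
    rfl
  let d : T × T → ι → Ω := fun pq i => e (s i) pq.1 - e (s i) pq.2
  let X : ι → S →ₗ[Ω] S := fun i => LinearMap.mulLeft Ω (s i)
  have hXE : ∀ i p q, ad X X i (E p q) = (d (p, q) i) • E p q := by
    intro i p q
    ext t
    change s i * E p q t - E p q (s i * t) = (d (p, q) i) • E p q t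
    rw [hE, hE, mul_smul_comm, hep, map_mul, Pi.mul_apply, smul_smul, smul_smul, ← sub_smul]
    congr 1
    simp only [d]
    ring
  let W : T × T → Submodule Ω (ι → Ω) := fun pq =>
    Z1 (fun i => (d pq i) • (LinearMap.id : Ω →ₗ[Ω] Ω))
  let Φ : (∀ pq : T × T, W pq) →ₗ[Ω] Z1 (ad X X) :=
    { toFun := fun c => ⟨fun i => ∑ pq : T × T, (c pq : ι → Ω) i • E pq.1 pq.2, by
        intro i j
        rw [map_sum, map_sum]
        refine Finset.sum_congr rfl fun pq _ => ?_
        rw [map_smul, map_smul, hXE, hXE, smul_smul, smul_smul]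
        congr 1
        have := (c pq).2 i j
        simp only [LinearMap.smul_apply, LinearMap.id_apply, smul_eq_mul] at this
        rw [mul_comm, this, mul_comm]⟩
      map_add' := by
        intro c c'
        apply Subtype.ext
        funext i
        simp [add_smul, Finset.sum_add_distrib]
      map_smul' := by
        intro r c
        apply Subtype.ext
        funext i
        simp [smul_smul, Finset.smul_sum] }
  have hΦ : Function.Injective Φ := by
    rw [injective_iff_map_eq_zero]
    intro c hc
    funext pq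
    apply Subtype.ext
    funext i
    have h1 := congrFun (congrArg Subtype.val hc) i
    have h2 := congrArg (fun f : S →ₗ[Ω] S => e (f (ep pq.2)) pq.1) h1
    simp only [Φ, LinearMap.coe_mk, AddHom.coe_mk, LinearMap.sum_apply, LinearMap.smul_apply, hE,
      Submodule.coe_zero, Pi.zero_apply, LinearMap.zero_apply, map_zero, map_sum, map_smul,
      Finset.sum_apply, Pi.smul_apply, smul_eq_mul] at h2
    rw [Finset.sum_eq_single pq] at h2
    · simpa [ep] using h2
    · intro qr _ hqr
      by_cases h : qr.1 = pq.1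
      · have h' : qr.2 ≠ pq.2 := fun h'' => hqr (Prod.ext h h'')
        simp [ep, Pi.single_apply, h']
      · have h' : pq.1 ≠ qr.1 := fun h'' => h h''.symm
        simp [ep, Pi.single_apply, h']
    · intro h; exact absurd (Finset.mem_univ pq) h
  have h1 := LinearMap.finrank_le_finrank_of_injective hΦ
  rw [Module.finrank_pi_fintype] at h1
  have h2 : ∀ pq : T × T, (if pq.1 = pq.2 then Fintype.card ι else 1) ≤ finrank Ω (W pq) := by
    intro pq
    split_ifs with h
    · have : (fun i => (d pq i) • (LinearMap.id : Ω →ₗ[Ω] Ω)) =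
          fun _ : ι => (0 : Ω) • (LinearMap.id : Ω →ₗ[Ω] Ω) := by
        funext i
        simp [d, h]
      change _ ≤ finrank Ω (Z1 (fun i => (d pq i) • (LinearMap.id : Ω →ₗ[Ω] Ω)))
      rw [this, finrank_W_zero]
    · exact one_le_finrank_W _
  have h3 : ∑ pq : T × T, (if pq.1 = pq.2 then Fintype.card ι else 1) ≤ _ :=
    (Finset.sum_le_sum fun pq _ => h2 pq).trans h1
  have h4 : ∑ pq : T × T, (if pq.1 = pq.2 then Fintype.card ι else 1) + Fintype.card T =
      Fintype.card T * Fintype.card T + Fintype.card ι * Fintype.card T := by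
    have h5 : ∑ pq : T × T, (if pq.1 = pq.2 then 1 else 0) = Fintype.card T := by
      rw [Fintype.sum_prod_type]
      simp
    have h6 : ∑ pq : T × T, (if pq.1 = pq.2 then Fintype.card ι else 0) =
        Fintype.card ι * Fintype.card T := by
      rw [Fintype.sum_prod_type]
      simp [mul_comm]
    have h7 : ∑ _pq : T × T, 1 = Fintype.card T * Fintype.card T := by
      simp
    rw [← h7, ← h6, ← Finset.sum_add_distrib]
    conv_lhs => rw [← h5]
    rw [← Finset.sum_add_distrib]
    refine Finset.sum_congr rfl fun pq _ => ?_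
    split_ifs <;> ring
  calc _ = _ := h4.symm
    _ ≤ _ := Nat.add_le_add_right h3 _

end diag

section smooth

variable {k : Type u} [Field k]

/-- If `B` is smoothable then the space of cocycles for the action of finitely many elements
of `B` is at least as large as for a reduced algebra. -/
theorem z1_ge {B : Type u} [CommRing B] [Algebra k B] (hB : IsSmoothable k B)
    {ι : Type*} [Fintype ι] [Nonempty ι] (x : ι → B) :
    Module.Finite k B ∧ finrank k B * finrank k B + Fintype.card ι * finrank k B ≤
      finrank k (Z1 (ad (fun i => LinearMap.mulLeft k (x i)) (fun i => LinearMap.mulLeft k (x i)))) +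
        finrank k B := by
  classical
  obtain ⟨𝒜, _, _, hfin, hflat, hred, π, hπ, hker, hC⟩ := hB
  have hfree : Module.Free (PowerSeries k) 𝒜 := Module.free_of_flat_of_isLocalRing
  have hsm := red_smul (k := k) hker hC
  let Ω := AlgebraicClosure (LaurentSeries k)
  have : Module.Flat (PowerSeries k) (LaurentSeries k) :=
    IsLocalization.flat _ (nonZeroDivisors (PowerSeries k))
  have hfl : Module.Flat (PowerSeries k) Ω := Module.Flat.trans (PowerSeries k) (LaurentSeries k) Ω
  have hred' : IsReduced (Ω ⊗[PowerSeries k] 𝒜) := by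
    have h1 : IsReduced (Ω ⊗[LaurentSeries k] (LaurentSeries k ⊗[PowerSeries k] 𝒜)) :=
      (Algebra.isGeometricallyReduced_field_iff _ _).mp hred
    exact isReduced_of_injective
      (Algebra.TensorProduct.cancelBaseChange (PowerSeries k) (LaurentSeries k) Ω Ω 𝒜).symm
      (Algebra.TensorProduct.cancelBaseChange (PowerSeries k) (LaurentSeries k) Ω Ω 𝒜).symm.injective
  -- basis
  let b := Module.Free.chooseBasis (PowerSeries k) 𝒜
  let L := Module.Free.ChooseBasisIndex (PowerSeries k) 𝒜
  have hπsum : ∀ a : 𝒜, π a = ∑ l, PowerSeries.constantCoeff (b.repr a l) • π (b l) := by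
    intro a
    conv_lhs => rw [← b.sum_repr a]
    rw [map_sum]
    exact Finset.sum_congr rfl (fun l _ => hsm _ _)
  have hspan : ⊤ ≤ Submodule.span k (Set.range fun l => π (b l)) := by
    intro x _
    obtain ⟨a, rfl⟩ := hπ x
    rw [hπsum a]
    exact Submodule.sum_mem _ (fun l _ => Submodule.smul_mem _ _
      (Submodule.subset_span ⟨l, rfl⟩))
  have hli : LinearIndependent k fun l => π (b l) := by
    rw [Fintype.linearIndependent_iff]
    intro c hc l
    have h1 : π (∑ l, PowerSeries.C (c l) • b l) = 0 := by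
      rw [map_sum, ← hc]
      refine Finset.sum_congr rfl fun l _ => ?_
      rw [hsm, PowerSeries.constantCoeff_C]
    rw [← RingHom.mem_ker, hker] at h1
    obtain ⟨ν, hν⟩ := Ideal.mem_span_singleton'.mp h1
    have h2 : ∑ l, PowerSeries.C (c l) • b l = (PowerSeries.X : PowerSeries k) • ν := by
      rw [← hν, Algebra.smul_def, mul_comm]
    have h3 := congrArg (fun z => PowerSeries.constantCoeff (b.repr z l)) h2
    simp only [map_sum, map_smul, Finsupp.coe_finsetSum, Finset.sum_apply, Finsupp.smul_apply,
      Basis.repr_self, smul_eq_mul, map_mul, PowerSeries.constantCoeff_X, zero_mul,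
      PowerSeries.constantCoeff_C] at h3
    rw [Finset.sum_eq_single l] at h3
    · simpa using h3
    · intro q' _ hq'
      rw [Finsupp.single_eq_of_ne (Ne.symm hq')]; simp
    · intro h; exact absurd (Finset.mem_univ l) h
  let bB : Basis L k B := Basis.mk hli hspan
  have hbB : ∀ l, bB l = π (b l) := fun l => Basis.mk_apply hli hspan l
  have hfinB : Module.Finite k B := Module.Finite.of_basis bB
  refine ⟨hfinB, ?_⟩
  -- lifts
  choose a ha using fun i => hπ (x i)
  let α : ι → Matrix L L (PowerSeries k) := fun i => Algebra.leftMulMatrix b (a i)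
  have hα : ∀ i l', a i * b l' = ∑ l, α i l l' • b l := by
    intro i l'
    conv_lhs => rw [← b.sum_repr (a i * b l')]
    refine Finset.sum_congr rfl fun l _ => ?_
    congr 1
    exact (Algebra.leftMulMatrix_eq_repr_mul b (a i) l l').symm
  have hcard : Fintype.card L = finrank k B := (finrank_eq_card_basis bB).symm
  -- generic fibre
  obtain ⟨T, _, ⟨e⟩⟩ := exists_algEquiv_pi Ω (Ω ⊗[PowerSeries k] 𝒜)
  let c : Basis L Ω (Ω ⊗[PowerSeries k] 𝒜) := Algebra.TensorProduct.basis Ω b
  have hc : ∀ l, c l = 1 ⊗ₜ b l := fun l => Algebra.TensorProduct.basis_apply _ _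
  have hcard2 : Fintype.card T = finrank k B := by
    have h1 := finrank_eq_card_basis c
    rw [e.toLinearEquiv.finrank_eq] at h1
    simp only [finrank_fintype_fun_eq_card] at h1
    rw [h1, hcard]
  have h1 := diag_bound e (fun i => (1 : Ω) ⊗ₜ[PowerSeries k] a i)
  rw [hcard2] at h1
  refine h1.trans (Nat.add_le_add_right ?_ _)
  refine finrank_Z1_le (PowerSeries.constantCoeff (R := k)) (algebraMap (PowerSeries k) Ω) ?_ α bB c _ ?_ _ ?_
  · rw [IsScalarTower.algebraMap_eq (PowerSeries k) (LaurentSeries k) Ω]
    exact (algebraMap (LaurentSeries k) Ω).injective.comp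
      (IsFractionRing.injective (PowerSeries k) (LaurentSeries k))
  · intro i
    apply bB.ext
    intro l'
    rw [Matrix.toLin_self, LinearMap.mulLeft_apply, hbB, ← ha i, ← map_mul, hα, map_sum]
    refine Finset.sum_congr rfl fun l _ => ?_
    rw [hsm, hbB, Matrix.map_apply]
  · intro i
    apply c.ext
    intro l'
    rw [Matrix.toLin_self, LinearMap.mulLeft_apply, hc, Algebra.TensorProduct.tmul_mul_tmul, one_mul,
      hα, tmul_sum]
    refine Finset.sum_congr rfl fun l _ => ?_
    rw [hc, Matrix.map_apply, tmul_smul, algebraMap_smul]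

end smooth

end Pool.Agent.H12.TG
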