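import Pool.Agent.H12.TG.Power
import Pool.Agent.H12.TG.Smooth

/-!
# The main inequality
-/

open Module TensorProduct

namespace Pool.Agent.H12.TG

open Pool.Agent.H12.Defect

universe u

section single

variable {k : Type*} [Field k] {A : Type*} [CommRing A] [Algebra k A] {ι : Type*}

/-- the annihilator of the nilradical; for a local algebra with residue field `k` this is the
socle -/
def socle (k : Type*) [Field k] (A : Type*) [CommRing A] [Algebra k A] : Submodule k A where
  carrier := {a | ∀ b, IsNilpotent b → b * a = 0}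
  add_mem' := by
    intro a a' ha ha' b hb
    rw [mul_add, ha b hb, ha' b hb, add_zero]
  zero_mem' := by
    intro b _
    simp
  smul_mem' := by
    intro c a ha b hb
    rw [mul_smul_comm, ha b hb, smul_zero]

/-- common eigenvectors are common eigenvectors for the algebra -/
theorem exists_scalar {x : ι → A} (hgen : Algebra.adjoin k (Set.range x) = ⊤) {χ : ι → k} {a : A}
    (ha : ∀ i, x i * a = χ i • a) (b : A) : ∃ c : k, b * a = c • a := by
  have hb : b ∈ Algebra.adjoin k (Set.range x) := by rw [hgen]; trivial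
  induction hb using Algebra.adjoin_induction with
  | mem b hb =>
    obtain ⟨i, rfl⟩ := hb
    exact ⟨χ i, ha i⟩
  | algebraMap r => exact ⟨r, by rw [Algebra.smul_def]⟩
  | add b b' _ _ hb hb' =>
    obtain ⟨c, hc⟩ := hb
    obtain ⟨c', hc'⟩ := hb'
    exact ⟨c + c', by rw [add_mul, hc, hc', add_smul]⟩
  | mul b b' _ _ hb hb' =>
    obtain ⟨c, hc⟩ := hb
    obtain ⟨c', hc'⟩ := hb'
    exact ⟨c * c', by rw [mul_assoc, hc', mul_smul_comm, hc, smul_smul, mul_comm c']⟩

theorem mul_eq_zero_of_nilpotent {x : ι → A} (hgen : Algebra.adjoin k (Set.range x) = ⊤)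
    {χ : ι → k} {a : A} (ha : ∀ i, x i * a = χ i • a) (b : A) (hb : IsNilpotent b) : b * a = 0 := by
  obtain ⟨c, hc⟩ := exists_scalar hgen ha b
  obtain ⟨n, hn⟩ := hb
  have h1 : ∀ m : ℕ, b ^ m * a = c ^ m • a := by
    intro m
    induction m with
    | zero => simp
    | succ m ih => rw [pow_succ, mul_assoc, hc, mul_smul_comm, ih, smul_smul, pow_succ, mul_comm]
  have h2 := h1 n
  rw [hn, zero_mul] at h2
  rcases smul_eq_zero.mp h2.symm with h3 | h3
  · have h4 : c = 0 := eq_zero_of_pow_eq_zero h3
    rw [hc, h4, zero_smul]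
  · rw [h3, mul_zero]

variable [FiniteDimensional k A] [Fintype ι]

theorem Bd_k (x : ι → A) (hgen : Algebra.adjoin k (Set.range x) = ⊤) (χ : ι → k) :
    Bd (ad (sc χ) (mulOp k x)) (finrank k (socle k A)) (Fintype.card ι * finrank k A) := by
  refine ⟨ad_comm (sc_comm χ) (mulOp_comm x), ?_, ?_⟩
  · let F : H0 (ad (sc χ) (mulOp k x)) →ₗ[k] socle k A :=
      { toFun := fun f => ⟨(f : k →ₗ[k] A) 1, by
          intro b hb
          refine mul_eq_zero_of_nilpotent hgen (χ := χ) ?_ b hb
          intro i
          have h := LinearMap.congr_fun (f.2 i) 1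
          simp only [ad_apply, LinearMap.sub_apply, LinearMap.comp_apply, mulOp_apply, sc_apply,
            LinearMap.zero_apply] at h
          rw [sub_eq_zero] at h
          rw [h, ← map_smul, smul_eq_mul]⟩
        map_add' := by intro f g; rfl
        map_smul' := by intro c f; rfl }
    refine LinearMap.finrank_le_finrank_of_injective (f := F) ?_
    intro f g h
    apply Subtype.ext
    apply LinearMap.ext_ring
    exact congrArg Subtype.val h
  · have h1 : finrank k (Z1 (ad (sc χ) (mulOp k x))) ≤ finrank k (ι → (k →ₗ[k] A)) :=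
      Submodule.finrank_le _
    have h2 : finrank k (H0 (ad (sc χ) (mulOp k x))) ≤ finrank k (k →ₗ[k] A) :=
      Submodule.finrank_le _
    rw [Module.finrank_pi_fintype] at h1
    simp only [finrank_linearMap, finrank_self, one_mul, Finset.sum_const, Finset.card_univ,
      smul_eq_mul] at h1 h2 ⊢
    omega

theorem Bd_Ak (x : ι → A) (hgen : Algebra.adjoin k (Set.range x) = ⊤) (χ : ι → k) :
    Bd (ad (mulOp k x) (sc χ)) 1 (Fintype.card ι * finrank k A) := by
  refine ⟨ad_comm (mulOp_comm x) (sc_comm χ), ?_, ?_⟩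
  · let F : H0 (ad (mulOp k x) (sc χ)) →ₗ[k] k :=
      { toFun := fun f => (f : A →ₗ[k] k) 1
        map_add' := by intro f g; rfl
        map_smul' := by intro c f; rfl }
    have h := LinearMap.finrank_le_finrank_of_injective (f := F) ?_
    · rwa [finrank_self] at h
    rw [injective_iff_map_eq_zero]
    intro f hf
    have key : ∀ a ∈ Algebra.adjoin k (Set.range x), ∃ c : k, ∀ b, (f : A →ₗ[k] k) (a * b) =
        c * (f : A →ₗ[k] k) b := by
      intro a ha
      induction ha using Algebra.adjoin_induction with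
      | mem a ha =>
        obtain ⟨i, rfl⟩ := ha
        refine ⟨χ i, fun b => ?_⟩
        have h := LinearMap.congr_fun (f.2 i) b
        simp only [ad_apply, LinearMap.sub_apply, LinearMap.comp_apply, mulOp_apply, sc_apply,
          LinearMap.zero_apply] at h
        exact (sub_eq_zero.mp h).symm
      | algebraMap r =>
        refine ⟨r, fun b => ?_⟩
        rw [← Algebra.smul_def, map_smul, smul_eq_mul]
      | add a a' _ _ ha ha' =>
        obtain ⟨c, hc⟩ := ha
        obtain ⟨c', hc'⟩ := ha'
        exact ⟨c + c', fun b => by rw [add_mul, map_add, hc, hc', add_mul]⟩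
      | mul a a' _ _ ha ha' =>
        obtain ⟨c, hc⟩ := ha
        obtain ⟨c', hc'⟩ := ha'
        exact ⟨c * c', fun b => by rw [mul_assoc, hc, hc', mul_assoc]⟩
    apply Subtype.ext
    ext a
    obtain ⟨c, hc⟩ := key a (by rw [hgen]; trivial)
    have h1 := hc 1
    rw [mul_one] at h1
    rw [h1]
    have h2 : (f : A →ₗ[k] k) 1 = 0 := hf
    rw [h2, mul_zero]
    rfl
  · have h1 : finrank k (Z1 (ad (mulOp k x) (sc χ))) ≤ finrank k (ι → (A →ₗ[k] k)) :=
      Submodule.finrank_le _
    have h2 : finrank k (H0 (ad (mulOp k x) (sc χ))) ≤ finrank k (A →ₗ[k] k) :=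
      Submodule.finrank_le _
    rw [Module.finrank_pi_fintype] at h1
    simp only [finrank_linearMap, finrank_self, mul_one, Finset.sum_const, Finset.card_univ,
      smul_eq_mul] at h1 h2 ⊢
    omega

theorem finrank_PP (n : ℕ) : finrank k (PP k A n) = finrank k A ^ n := by
  induction n with
  | zero => rw [(PiTensorProduct.isEmptyEquiv (Fin 0)).finrank_eq, finrank_self, pow_zero]
  | succ n ih => rw [(split k A n).finrank_eq, finrank_tensorProduct, ih]; ring

omit [Fintype ι] in
/-- multiplications commute with multiplications -/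
theorem le_finrank_H0 {B : Type*} [CommRing B] [Algebra k B] [FiniteDimensional k B] (x : ι → B) :
    finrank k B ≤ finrank k (H0 (ad (mulOp k x) (mulOp k x))) := by
  let F : B →ₗ[k] H0 (ad (mulOp k x) (mulOp k x)) :=
    { toFun := fun b => ⟨LinearMap.mulLeft k b, by
        intro i
        ext a
        simp only [ad_apply, LinearMap.sub_apply, LinearMap.comp_apply, mulOp_apply,
          LinearMap.mulLeft_apply, LinearMap.zero_apply]
        ring⟩
      map_add' := by intro a b; apply Subtype.ext; ext c; simp [add_mul]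
      map_smul' := by intro r a; apply Subtype.ext; ext c; simp }
  refine LinearMap.finrank_le_finrank_of_injective (f := F) ?_
  intro a b h
  have := LinearMap.congr_fun (congrArg Subtype.val h) 1
  simpa [F] using this

end single

section main

variable {k : Type u} [Field k] [IsAlgClosed k]

/-- One smoothable `B` surjecting onto `P`. -/
theorem ineq {P B : Type u} [CommRing P] [Algebra k P] [FiniteDimensional k P] [CommRing B]
    [Algebra k B] (hB : IsSmoothable k B) (g : B →ₐ[k] P) (hg : Function.Surjective g)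
    {κ : Type} [Fintype κ] [Nonempty κ] (y : κ → P) {δ hP eP e1 e2 : ℕ}
    (hδ : finrank k B = finrank k P + δ)
    (h1 : Bd (ad (mulOp k y) (mulOp k y)) hP eP)
    (h2 : ∀ χ : κ → k, Bd (ad (sc χ) (mulOp k y)) (finrank k P) e1)
    (h3 : ∀ χ : κ → k, Bd (ad (mulOp k y) (sc χ)) (finrank k P) e2) :
    Fintype.card κ * finrank k P ≤ eP + δ * (e1 + e2) + Fintype.card κ * (δ * δ) := by
  classical
  choose x hx using fun i => hg (y i)
  obtain ⟨hfinB, h0⟩ := z1_ge (k := k) hB x
  let K := LinearMap.ker g.toLinearMap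
  have hK : finrank k K = δ := by
    have h4 := LinearMap.finrank_range_add_finrank_ker g.toLinearMap
    rw [LinearMap.range_eq_top.mpr hg, finrank_top, hδ] at h4
    change finrank k P + finrank k K = finrank k P + δ at h4
    omega
  let XK : κ → K →ₗ[k] K := fun i => (mulOp k x i).restrict (p := K) (q := K) (by
    intro v hv
    have hv' : g v = 0 := hv
    change g (x i * v) = 0
    rw [map_mul, hv', mul_zero])
  have hXK : ∀ i j v, XK i (XK j v) = XK j (XK i v) := by
    intro i j v
    apply Subtype.ext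
    exact mulOp_comm (k := k) x i j (v : B)
  have hXKval : ∀ i v, K.subtype (XK i v) = mulOp k x i (K.subtype v) := fun i v => rfl
  have hgx : ∀ i v, g.toLinearMap (mulOp k x i v) = mulOp k y i (g.toLinearMap v) := by
    intro i v
    simp [hx]
  have hker : LinearMap.ker g.toLinearMap = LinearMap.range K.subtype :=
    (Submodule.range_subtype _).symm
  -- exact sequences
  have s1 := finrank_Z1_exact_right (mulOp k x) XK (mulOp k x) (mulOp k y) K.subtype g.toLinearMap
    K.subtype_injective hker hXKval hgx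
  have s2 := finrank_Z1_exact_left XK (mulOp k x) (mulOp k y) XK K.subtype g.toLinearMap
    hg hker hXKval hgx
  have s3 := finrank_Z1_exact_left XK (mulOp k x) (mulOp k y) (mulOp k y) K.subtype g.toLinearMap
    hg hker hXKval hgx
  have s4 : finrank k (Z1 (ad XK XK)) ≤ Fintype.card κ * (δ * δ) := by
    have h4 : finrank k (Z1 (ad XK XK)) ≤ finrank k (κ → (K →ₗ[k] K)) := Submodule.finrank_le _
    rw [Module.finrank_pi_fintype] at h4
    simpa only [finrank_linearMap, Finset.sum_const, Finset.card_univ, smul_eq_mul, hK] using h4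
  have s5 : finrank k (Z1 (ad (mulOp k y) XK)) ≤ δ * (finrank k P + e2) := by
    refine finrank_Z1_flag_right (mulOp k y) _ ?_ δ K XK hXK hK
    intro χ
    have h4 := (h3 χ).z1
    rw [finrank_linearMap, finrank_self, mul_one] at h4
    omega
  have s6 : finrank k (Z1 (ad XK (mulOp k y))) ≤ δ * (finrank k P + e1) := by
    refine finrank_Z1_flag (mulOp k y) _ ?_ δ K XK hXK hK
    intro χ
    have h4 := (h2 χ).z1
    rw [finrank_linearMap, finrank_self, one_mul] at h4
    omega
  have s7 := h1.z1
  have s8 := le_finrank_H0 (k := k) y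
  rw [finrank_linearMap] at s7
  change finrank k B * finrank k B + Fintype.card κ * finrank k B ≤
    finrank k (Z1 (ad (mulOp k x) (mulOp k x))) + finrank k B at h0
  rw [hδ] at h0
  have hκ : 1 ≤ Fintype.card κ := Fintype.card_pos
  set p := finrank k P with hp
  set c := Fintype.card κ with hc
  -- numerical conclusion
  have h5 : (p + δ) * (p + δ) + c * (p + δ) ≤ c * (δ * δ) + δ * (p + e2) + (δ * (p + e1) +
      finrank k (Z1 (ad (mulOp k y) (mulOp k y)))) + (p + δ) := by omega
  have h6 : δ ≤ c * δ := Nat.le_mul_of_pos_left δ hκ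
  nlinarith [h5, s7, s8, h6, Nat.zero_le (δ * δ)]

/-- The main inequality for powers. -/
theorem main_ineq {A : Type u} [CommRing A] [Algebra k A] [FiniteDimensional k A] {ι : Type}
    [Fintype ι] (x : ι → A) (hgen : Algebra.adjoin k (Set.range x) = ⊤)
    (hd : 0 < finrank k A) {n δ : ℕ} (hn : 1 ≤ n) (hδ : δ ∈ defects k (PP k A n)) :
    Fintype.card ι * finrank k A ^ n ≤ finrank k (tangent (k := k) x) * finrank k A ^ (n - 1) +
      Fintype.card ι * finrank k A * (1 + finrank k (socle k A) ^ (n - 1)) * δ +
      Fintype.card ι * (δ * δ) := by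
  classical
  rcases isEmpty_or_nonempty ι with hN | hN
  · simp
  obtain ⟨B, iB, aB, hB, ⟨g, hg⟩, hdeg⟩ := hδ
  have : Nonempty (Fin n × ι) := ⟨(⟨0, hn⟩, Classical.arbitrary ι)⟩
  set d := finrank k A with hd'
  set τ := finrank k (socle k A) with hτ
  set t := finrank k (tangent (k := k) x) with ht
  set N := Fintype.card ι with hN'
  have b1 := Bd_PP x (Bd_mulOp x hgen) n
  have b2 := Bd_kP x (Bd_k x hgen) n
  have b3 := Bd_Pk x (Bd_Ak x hgen) n
  have hP : finrank k (PP k A n) = d ^ n := finrank_PP n
  have hτd : τ ^ n ≤ finrank k (PP k A n) := by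
    rw [hP]
    exact Nat.pow_le_pow_left (Submodule.finrank_le _) n
  have hone : 1 ≤ finrank k (PP k A n) := by
    rw [hP]
    exact Nat.one_le_pow _ _ hd
  have h := ineq hB g hg (xs k x n) hdeg b1
    (fun χ => ⟨(b2 χ).comm, (b2 χ).h0.trans hτd, (b2 χ).z1⟩)
    (fun χ => ⟨(b3 χ).comm, (b3 χ).h0.trans hone, (b3 χ).z1⟩)
  rw [hP, Fintype.card_prod, Fintype.card_fin] at h
  have h2 : n * (N * d ^ n) ≤ n * (t * d ^ (n - 1) + N * d * (1 + τ ^ (n - 1)) * δ +
      N * (δ * δ)) := by
    calc n * (N * d ^ n) = n * N * d ^ n := by ring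
      _ ≤ _ := h
      _ = _ := by ring
  exact Nat.le_of_mul_le_mul_left h2 hn

/-- a reduced algebra has a tangent space of dimension at least `N d` -/
theorem le_tangent_of_isReduced {A : Type u} [CommRing A] [Algebra k A] [FiniteDimensional k A]
    {ι : Type} [Fintype ι] (x : ι → A) (hgen : Algebra.adjoin k (Set.range x) = ⊤)
    [IsReduced A] : Fintype.card ι * finrank k A ≤ finrank k (tangent (k := k) x) := by
  classical
  rcases isEmpty_or_nonempty ι with hN | hN
  · simp
  obtain ⟨T, _, ⟨e⟩⟩ := exists_algEquiv_pi k A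
  have h1 := diag_bound e x
  have h2 := (Bd_mulOp x hgen).z1
  have h3 := le_finrank_H0 (k := k) x
  have h4 : finrank k A = Fintype.card T := by
    rw [e.toLinearEquiv.finrank_eq]; simp
  rw [← h4] at h1
  rw [finrank_linearMap] at h2
  change finrank k A * finrank k A + Fintype.card ι * finrank k A ≤
    finrank k (Z1 (ad (mulOp k x) (mulOp k x))) + finrank k A at h1
  omega

omit [IsAlgClosed k] in
theorem socle_lt {A : Type u} [CommRing A] [Algebra k A] [FiniteDimensional k A]
    (h : ¬ IsReduced A) : finrank k (socle k A) < finrank k A := by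
  apply Submodule.finrank_lt
  intro htop
  apply h
  refine ⟨fun a ha => ?_⟩
  have h1 : (1 : A) ∈ socle k A := by rw [htop]; trivial
  have h2 := h1 a ha
  rwa [mul_one] at h2

omit [IsAlgClosed k] in
theorem socle_pos {A : Type u} [CommRing A] [Algebra k A] [FiniteDimensional k A]
    [Nontrivial A] : 0 < finrank k (socle k A) := by
  have : IsArtinianRing A := isArtinian_of_tower k inferInstance
  have hnil : IsNilpotent (nilradical A) := IsArtinianRing.isNilpotent_nilradical
  have h0 : ∃ a, a ∈ socle k A ∧ a ≠ 0 := by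
    classical
    have h1 := Nat.find_spec hnil
    have hpos : Nat.find hnil ≠ 0 := by
      intro h0
      rw [h0, pow_zero, Ideal.one_eq_top] at h1
      exact top_ne_bot h1
    obtain ⟨j, hj⟩ := Nat.exists_eq_succ_of_ne_zero hpos
    have h2 : nilradical A ^ j ≠ ⊥ := by
      intro h2
      exact Nat.find_min hnil (m := j) (by omega) h2
    obtain ⟨a, ha, ha0⟩ := Submodule.exists_mem_ne_zero_of_ne_bot h2
    refine ⟨a, ?_, ha0⟩
    intro b hb
    have h3 : b * a ∈ nilradical A ^ (Nat.find hnil) := by
      rw [hj, pow_succ']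
      exact Ideal.mul_mem_mul (mem_nilradical.mpr hb) ha
    rw [h1] at h3
    exact h3
  obtain ⟨a, ha, ha0⟩ := h0
  have : Nontrivial (socle k A) := ⟨⟨a, ha⟩, 0, fun h => ha0 (congrArg Subtype.val h)⟩
  exact Module.finrank_pos

end main

end Pool.Agent.H12.TG
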