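import Pool.Agent.H12.TG.Tangent
import Pool.Agent.H12.TG.Filt

/-!
# Bounds for tensor powers
-/

open Module TensorProduct

namespace Pool.Agent.H12.TG

universe u

variable {k : Type*} [Field k] {A : Type*} [CommRing A] [Algebra k A] {ι : Type*}

/-- tensor power -/
abbrev PP (k : Type*) [Field k] (A : Type*) [CommRing A] [Algebra k A] (n : ℕ) :=
  ⨂[k] _ : Fin n, A

/-- the element `x i` at the `j`-th place -/
noncomputable def xs (k : Type*) [Field k] {A : Type*} [CommRing A] [Algebra k A] {ι : Type*}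
    (x : ι → A) (n : ℕ) (s : Fin n × ι) : PP k A n :=
  PiTensorProduct.singleAlgHom (R := k) (A := fun _ : Fin n => A) s.1 (x s.2)

theorem xs_mul_tprod (x : ι → A) (n : ℕ) (s : Fin n × ι) (a : Fin n → A) :
    xs k x n s * PiTensorProduct.tprod k a =
      PiTensorProduct.tprod k (Function.update a s.1 (x s.2 * a s.1)) := by
  rw [xs, PiTensorProduct.singleAlgHom_apply, PiTensorProduct.tprod_mul_tprod]
  congr 1
  funext j
  rw [Pi.mul_apply, MonoidHom.mulSingle_apply]
  by_cases h : j = s.1
  · subst h; simp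
  · simp [h]

/-- splitting off the first factor -/
noncomputable def split (k : Type*) [Field k] (A : Type*) [CommRing A] [Algebra k A] (n : ℕ) :
    PP k A (n + 1) ≃ₗ[k] A ⊗[k] PP k A n :=
  LinearEquiv.ofLinearMap
    (PiTensorProduct.lift (LinearMap.uncurryLeft (M := fun _ : Fin (n + 1) => A)
      { toFun := fun a => (TensorProduct.mk k A (PP k A n) a).compMultilinearMap
          (PiTensorProduct.tprod k)
        map_add' := by
          intro a b
          ext m
          simp
        map_smul' := by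
          intro c a
          ext m
          simp [TensorProduct.smul_tmul'] }))
    (TensorProduct.lift ((PiTensorProduct.lift (R := k) (s := fun _ : Fin n => A)
      (E := PP k A (n + 1))).toLinearMap ∘ₗ
        (PiTensorProduct.tprod k (s := fun _ : Fin (n + 1) => A)).curryLeft))
    (by
      ext a m
      simp)
    (by
      ext m
      simp)

theorem split_tprod (n : ℕ) (a : Fin (n + 1) → A) :
    split k A n (PiTensorProduct.tprod k a) = a 0 ⊗ₜ PiTensorProduct.tprod k (Fin.tail a) := by
  simp [split]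

/-- splitting of the index set -/
def splitIdx (n : ℕ) (ι : Type*) : Fin (n + 1) × ι ≃ ι ⊕ (Fin n × ι) where
  toFun s := Fin.cases (motive := fun _ => ι ⊕ (Fin n × ι)) (Sum.inl s.2) (fun j => Sum.inr (j, s.2)) s.1
  invFun := Sum.elim (fun i => (0, i)) (fun s => (s.1.succ, s.2))
  left_inv := by
    rintro ⟨j, i⟩
    refine Fin.cases ?_ (fun j => ?_) j
    · rfl
    · rfl
  right_inv := by
    rintro (i | s)
    · rfl
    · rfl

theorem split_op (x : ι → A) (n : ℕ) (s : Fin (n + 1) × ι) (p : PP k A (n + 1)) :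
    split k A n (mulOp k (xs k x (n + 1)) s p) =
      box (mulOp k x) (mulOp k (xs k x n)) (splitIdx n ι s) (split k A n p) := by
  rw [← LinearEquiv.coe_coe, ← LinearMap.comp_apply, ← LinearMap.comp_apply]
  congr 1
  apply PiTensorProduct.ext
  apply MultilinearMap.ext
  intro a
  obtain ⟨j, i⟩ := s
  simp only [LinearMap.compMultilinearMap_apply, LinearMap.comp_apply, LinearEquiv.coe_coe,
    mulOp_apply, xs_mul_tprod, split_tprod]
  refine Fin.cases ?_ (fun j => ?_) j
  · change _ = box (mulOp k x) (mulOp k (xs k x n)) (Sum.inl i) _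
    rw [box_inl, mulOp_apply]
    congr 1
  · change _ = box (mulOp k x) (mulOp k (xs k x n)) (Sum.inr (j, i)) _
    rw [box_inr, mulOp_apply, xs_mul_tprod]
    congr 1
    congr 1
    funext l
    simp only [Fin.tail, Function.update_apply, Fin.succ_inj]

variable {ι' : Type*}

theorem Bd.ad_congr {V V' U U' : Type*} [AddCommGroup V] [Module k V] [AddCommGroup V'] [Module k V']
    [AddCommGroup U] [Module k U] [AddCommGroup U'] [Module k U']
    {X : ι → V →ₗ[k] V} {X' : ι' → V' →ₗ[k] V'} {Y : ι → U →ₗ[k] U}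
    {Y' : ι' → U' →ₗ[k] U'} {h e : ℕ} (hb : Bd (ad X' Y') h e) (eV : V ≃ₗ[k] V') (eU : U ≃ₗ[k] U')
    (f : ι ≃ ι') (hV : ∀ i v, eV (X i v) = X' (f i) (eV v))
    (hU : ∀ i v, eU (Y i v) = Y' (f i) (eU v)) : Bd (ad X Y) h e := by
  refine hb.congr (eV.arrowCongr eU).symm f.symm ?_
  intro i m
  obtain ⟨i, rfl⟩ := f.surjective i
  rw [Equiv.symm_apply_apply]
  ext v
  apply eU.injective
  simp only [ad_apply, LinearEquiv.arrowCongr_symm_apply, LinearMap.sub_apply,
    LinearMap.comp_apply, map_sub, LinearEquiv.apply_symm_apply, hU, hV]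

theorem Bd_empty [IsEmpty ι] {M : Type*} [AddCommGroup M] [Module k M] [FiniteDimensional k M]
    (T : ι → M →ₗ[k] M) {h : ℕ} (hM : finrank k M ≤ h) : Bd T h 0 := by
  refine ⟨fun i => isEmptyElim i, (Submodule.finrank_le _).trans hM, ?_⟩
  have h1 : finrank k (Z1 T) = 0 := by
    have : Subsingleton (Z1 T) := inferInstance
    exact Module.finrank_zero_of_subsingleton
  have h2 : finrank k (H0 T) ≤ finrank k M := Submodule.finrank_le _
  omega

/-- scalar operators split as a box -/
theorem sc_split (n : ℕ) (χ : Fin (n + 1) × ι → k) (s : Fin (n + 1) × ι) (c : k) :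
    (TensorProduct.lid k k).symm (sc χ s c) =
      box (sc fun i => χ (0, i)) (sc fun s : Fin n × ι => χ (s.1.succ, s.2)) (splitIdx n ι s)
        ((TensorProduct.lid k k).symm c) := by
  obtain ⟨j, i⟩ := s
  rw [TensorProduct.lid_symm_apply, TensorProduct.lid_symm_apply]
  refine Fin.cases ?_ (fun j => ?_) j
  · change _ = box _ _ (Sum.inl i) _
    rw [box_inl, sc_apply, sc_apply, ← smul_eq_mul (χ (0, i)) c,
      TensorProduct.tmul_smul, TensorProduct.smul_tmul', smul_eq_mul]
  · change _ = box _ _ (Sum.inr (j, i)) _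
    rw [box_inr, sc_apply, sc_apply]

section bounds

variable [Finite ι] [FiniteDimensional k A] (x : ι → A)

theorem sc_comm {κ : Type*} (χ : κ → k) (i j : κ) (v : k) :
    sc χ i (sc χ j v) = sc χ j (sc χ i v) := by
  simp only [sc_apply]; ring

theorem Bd_PP {h e : ℕ} (h1 : Bd (ad (mulOp k x) (mulOp k x)) h e) (n : ℕ) :
    Bd (ad (mulOp k (xs k x n)) (mulOp k (xs k x n))) (h ^ n) (n * e * h ^ (n - 1)) := by
  induction n with
  | zero =>
    rw [pow_zero, Nat.zero_mul, Nat.zero_mul]
    refine Bd_empty _ ?_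
    have : finrank k (PP k A 0) = 1 := by
      rw [(PiTensorProduct.isEmptyEquiv (Fin 0)).finrank_eq, finrank_self]
    rw [finrank_linearMap, this, one_mul]
  | succ n ih =>
    have h2 := (h1.ad_box ih).ad_congr (split k A n) (split k A n) (splitIdx n ι)
      (split_op x n) (split_op x n)
    have e1 : h * h ^ n = h ^ (n + 1) := by ring
    have e2 : e * h ^ n + h * (n * e * h ^ (n - 1)) = (n + 1) * e * h ^ (n + 1 - 1) := by
      rcases n with _ | n
      · simp
      · simp only [Nat.add_sub_cancel]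
        ring
    rw [e1, e2] at h2
    exact h2

theorem Bd_kP {h e : ℕ} (h1 : ∀ χ : ι → k, Bd (ad (sc χ) (mulOp k x)) h e) (n : ℕ) :
    ∀ χ : Fin n × ι → k, Bd (ad (sc χ) (mulOp k (xs k x n))) (h ^ n) (n * e * h ^ (n - 1)) := by
  induction n with
  | zero =>
    intro χ
    rw [pow_zero, Nat.zero_mul, Nat.zero_mul]
    refine Bd_empty _ ?_
    have : finrank k (PP k A 0) = 1 := by
      rw [(PiTensorProduct.isEmptyEquiv (Fin 0)).finrank_eq, finrank_self]
    rw [finrank_linearMap, this, finrank_self, one_mul]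
  | succ n ih =>
    intro χ
    have h2 := ((h1 (fun i => χ (0, i))).ad_box (ih (fun s => χ (s.1.succ, s.2)))).ad_congr
      (TensorProduct.lid k k).symm (split k A n) (splitIdx n ι)
      (sc_split n χ) (split_op x n)
    have e1 : h * h ^ n = h ^ (n + 1) := by ring
    have e2 : e * h ^ n + h * (n * e * h ^ (n - 1)) = (n + 1) * e * h ^ (n + 1 - 1) := by
      rcases n with _ | n
      · simp
      · simp only [Nat.add_sub_cancel]
        ring
    rw [e1, e2] at h2
    exact h2

theorem Bd_Pk {e : ℕ} (h1 : ∀ χ : ι → k, Bd (ad (mulOp k x) (sc χ)) 1 e) (n : ℕ) :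
    ∀ χ : Fin n × ι → k, Bd (ad (mulOp k (xs k x n)) (sc χ)) 1 (n * e) := by
  induction n with
  | zero =>
    intro χ
    rw [Nat.zero_mul]
    refine Bd_empty _ ?_
    have : finrank k (PP k A 0) = 1 := by
      rw [(PiTensorProduct.isEmptyEquiv (Fin 0)).finrank_eq, finrank_self]
    rw [finrank_linearMap, this, finrank_self, one_mul]
  | succ n ih =>
    intro χ
    have h2 := ((h1 (fun i => χ (0, i))).ad_box (ih (fun s => χ (s.1.succ, s.2)))).ad_congr
      (split k A n) (TensorProduct.lid k k).symm (splitIdx n ι)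
      (split_op x n) (sc_split n χ)
    have e1 : 1 * 1 = 1 := rfl
    have e2 : e * 1 + 1 * (n * e) = (n + 1) * e := by ring
    rw [e1, e2] at h2
    exact h2

end bounds

end Pool.Agent.H12.TG
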