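import Mathlib

/-!
# Semicontinuity of the dimension of solution spaces of linear systems
-/

open Module

namespace Pool.Agent.H12.TG

theorem exists_rows {K : Type*} [Field K] {m n : Type*} [Fintype m] [Fintype n]
    (A : Matrix m n K) {r : ℕ} (hr : A.rank = r) :
    ∃ (f : Fin r → m), LinearIndependent K (A.submatrix f id).row := by
  rw [Matrix.rank_eq_finrank_span_row] at hr
  subst hr
  obtain ⟨f0, hf0, -, hli⟩ := Submodule.exists_fun_fin_finrank_span_eq K (Set.range A.row)
  choose f hf using hf0
  refine ⟨f, ?_⟩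
  have : (A.submatrix f id).row = f0 := by
    funext i
    rw [← hf i]
    rfl
  rw [this]
  exact hli

theorem exists_minor {K : Type*} [Field K] {m n : Type*} [Fintype m] [Fintype n]
    (A : Matrix m n K) :
    ∃ (f : Fin A.rank → m) (g : Fin A.rank → n), (A.submatrix f g).det ≠ 0 := by
  classical
  obtain ⟨f, hli1⟩ := exists_rows A rfl
  have hr1 : (A.submatrix f id).rank = A.rank := by
    rw [hli1.rank_matrix]; simp
  have hr2 : (A.submatrix f id).transpose.rank = A.rank := by rw [Matrix.rank_transpose, hr1]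
  obtain ⟨g, hli3⟩ := exists_rows _ hr2
  refine ⟨f, g, ?_⟩
  have h1 := (Matrix.linearIndependent_rows_iff_isUnit.mp hli3)
  have h2 : ((A.submatrix f id).transpose.submatrix g id) = (A.submatrix f g).transpose := by
    ext i j; rfl
  rw [h2, Matrix.isUnit_iff_isUnit_det, Matrix.det_transpose] at h1
  exact h1.ne_zero

theorem rank_map_le {R k Ω : Type*} [CommRing R] [Field k] [Field Ω] (ρ : R →+* k) (σ : R →+* Ω)
    (hσ : Function.Injective σ) {m n : Type*} [Fintype m] [Fintype n] (S : Matrix m n R) :
    (S.map ρ).rank ≤ (S.map σ).rank := by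
  classical
  obtain ⟨f, g, h⟩ := exists_minor (S.map ρ)
  have h1 : ρ ((S.submatrix f g).det) ≠ 0 := by
    rw [RingHom.map_det]
    exact h
  have h2 : (S.submatrix f g).det ≠ 0 := by
    intro h0; exact h1 (by rw [h0, map_zero])
  have h3 : ((S.map σ).submatrix f g).det ≠ 0 := by
    have : ((S.map σ).submatrix f g) = σ.mapMatrix (S.submatrix f g) := rfl
    rw [this, ← RingHom.map_det]
    intro h0
    exact h2 (hσ (by rw [h0, map_zero]))
  have h4 := Matrix.rank_submatrix_le (S.map σ) f g
  rw [Matrix.rank_of_det_ne_zero h3] at h4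
  simpa using h4

theorem finrank_ker_le {R k Ω : Type*} [CommRing R] [Field k] [Field Ω] (ρ : R →+* k) (σ : R →+* Ω)
    (hσ : Function.Injective σ) {m n : Type*} [Fintype m] [Fintype n] (S : Matrix m n R) :
    finrank Ω (LinearMap.ker (S.map σ).mulVecLin) ≤ finrank k (LinearMap.ker (S.map ρ).mulVecLin) := by
  have h1 := LinearMap.finrank_range_add_finrank_ker (S.map σ).mulVecLin
  have h2 := LinearMap.finrank_range_add_finrank_ker (S.map ρ).mulVecLin
  have h3 := rank_map_le ρ σ hσ S
  unfold Matrix.rank at h3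
  simp only [finrank_fintype_fun_eq_card] at h1 h2
  omega

end Pool.Agent.H12.TG
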