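import Pool.Agent.H12.TG.Rank
import Pool.Agent.H12.TG.Basic

open Module

namespace Pool.Agent.H12.TG

section matrix

variable {ι L : Type*} [Fintype ι] [DecidableEq ι] [Fintype L] [DecidableEq L]

/-- coefficient matrix of the system `[α i, Z j] = [α j, Z i]` -/
def sys {R : Type*} [CommRing R] (α : ι → Matrix L L R) :
    Matrix (ι × ι × L × L) (ι × L × L) R :=
  fun t u =>
    (if u.1 = t.2.1 then (if u.2.2 = t.2.2.2 then α t.1 t.2.2.1 u.2.1 else 0) -
      (if u.2.1 = t.2.2.1 then α t.1 u.2.2 t.2.2.2 else 0) else 0) -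
    (if u.1 = t.1 then (if u.2.2 = t.2.2.2 then α t.2.1 t.2.2.1 u.2.1 else 0) -
      (if u.2.1 = t.2.2.1 then α t.2.1 u.2.2 t.2.2.2 else 0) else 0)

omit [Fintype ι] [Fintype L] in
theorem sys_map {R K : Type*} [CommRing R] [CommRing K] (ρ : R →+* K) (α : ι → Matrix L L R) :
    (sys α).map ρ = sys (fun i => (α i).map ρ) := by
  ext t u
  simp only [sys, Matrix.map_apply, map_sub, apply_ite ρ, map_zero]

theorem sys_mulVec {R : Type*} [CommRing R] (α : ι → Matrix L L R) (v : ι × L × L → R)
    (i j : ι) (l l' : L) :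
    (sys α).mulVec v (i, j, l, l') =
      ((α i * (Matrix.of fun p q => v (j, p, q)) - (Matrix.of fun p q => v (j, p, q)) * α i) -
       (α j * (Matrix.of fun p q => v (i, p, q)) - (Matrix.of fun p q => v (i, p, q)) * α j)) l l' := by
  simp only [Matrix.mulVec, dotProduct, sys, Fintype.sum_prod_type, sub_mul, ite_mul, zero_mul,
    Finset.sum_sub_distrib, Finset.sum_ite_eq', Finset.mem_univ, if_true, Matrix.sub_apply,
    Matrix.mul_apply, Matrix.of_apply, Finset.sum_ite_irrel, Finset.sum_const_zero]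
  have h : ∀ (a b : L → R), ∑ x, a x * b x = ∑ x, b x * a x := fun a b =>
    Finset.sum_congr rfl fun x _ => mul_comm _ _
  simp only [mul_comm]

theorem finrank_Z1_eq {K : Type*} [Field K] {V : Type*} [AddCommGroup V] [Module K V]
    (b : Basis L K V) (α : ι → Matrix L L K) (X : ι → V →ₗ[K] V)
    (hX : ∀ i, X i = Matrix.toLin b b (α i)) :
    finrank K (LinearMap.ker (sys α).mulVecLin) = finrank K (Z1 (ad X X)) := by
  classical
  let e : (ι × L × L → K) ≃ₗ[K] (ι → (V →ₗ[K] V)) :=
    ((LinearEquiv.curry K K ι (L × L)).trans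
      (LinearEquiv.piCongrRight fun _ => (LinearEquiv.curry K K L L).trans
        ((Matrix.ofLinearEquiv K).trans (Matrix.toLin b b))))
  have he : ∀ v i, e v i = Matrix.toLin b b (Matrix.of fun p q => v (i, p, q)) := fun v i => rfl
  have hmap : (LinearMap.ker (sys α).mulVecLin).map (e : (ι × L × L → K) →ₗ[K] (ι → (V →ₗ[K] V))) =
      Z1 (ad X X) := by
    ext w
    rw [Submodule.mem_map]
    constructor
    · rintro ⟨v, hv, rfl⟩
      intro i j
      rw [LinearMap.mem_ker, Matrix.mulVecLin_apply] at hv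
      have h1 : (α i * (Matrix.of fun p q => v (j, p, q)) - (Matrix.of fun p q => v (j, p, q)) * α i) -
        (α j * (Matrix.of fun p q => v (i, p, q)) - (Matrix.of fun p q => v (i, p, q)) * α j) = 0 := by
        ext l l'
        rw [← sys_mulVec, hv]
        rfl
      have h2 := congrArg (Matrix.toLin b b) h1
      simp only [map_sub, map_zero, Matrix.toLin_mul b b b] at h2
      have h3 := sub_eq_zero.mp h2
      rw [LinearEquiv.coe_coe, ad_apply, ad_apply, he, he, hX, hX]
      exact h3
    · intro hw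
      refine ⟨e.symm w, ?_, e.apply_symm_apply w⟩
      rw [LinearMap.mem_ker, Matrix.mulVecLin_apply]
      ext t
      obtain ⟨i, j, l, l'⟩ := t
      rw [sys_mulVec]
      have h1 := hw i j
      rw [ad_apply, ad_apply, hX, hX] at h1
      have h2 : ∀ i, w i = Matrix.toLin b b (Matrix.of fun p q => e.symm w (i, p, q)) := by
        intro i
        rw [← he, LinearEquiv.apply_symm_apply]
      rw [h2 i, h2 j, ← sub_eq_zero] at h1
      simp only [← Matrix.toLin_mul b b b, ← map_sub] at h1
      have h3 := (Matrix.toLin b b).injective (h1.trans (map_zero _).symm)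
      rw [h3]
      rfl
  rw [← hmap]
  exact (e.submoduleMap _).finrank_eq

theorem finrank_Z1_le {R k Ω : Type*} [CommRing R] [Field k] [Field Ω] (ρ : R →+* k) (σ : R →+* Ω)
    (hσ : Function.Injective σ) (α : ι → Matrix L L R)
    {V W : Type*} [AddCommGroup V] [Module k V] [AddCommGroup W] [Module Ω W]
    (b : Basis L k V) (c : Basis L Ω W)
    (X : ι → V →ₗ[k] V) (hX : ∀ i, X i = Matrix.toLin b b ((α i).map ρ))
    (Y : ι → W →ₗ[Ω] W) (hY : ∀ i, Y i = Matrix.toLin c c ((α i).map σ)) :
    finrank Ω (Z1 (ad Y Y)) ≤ finrank k (Z1 (ad X X)) := by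
  rw [← finrank_Z1_eq b _ X hX, ← finrank_Z1_eq c _ Y hY, ← sys_map, ← sys_map]
  exact finrank_ker_le ρ σ hσ _

end matrix

end Pool.Agent.H12.TG
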