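import Pool.Agent.H12.TG.Example

/-!
# The statement in terms of ideals of a polynomial ring
-/

open Module MvPolynomial

namespace Pool.Agent.H12.TG

open Pool.Agent.H12.Defect

universe u

section

variable {k : Type u} [Field k] {ι : Type}

/-- The dimension over `k` of `Hom_S(I, S/I)` for an ideal `I` of `S = k[X_i]`: this is the tangent
space of the Hilbert scheme at the closed subscheme `Spec (S/I)` of affine space. -/
noncomputable def tangentDim (I : Ideal (MvPolynomial ι k)) : ℕ :=
  finrank k (I →ₗ[MvPolynomial ι k] MvPolynomial ι k ⧸ I)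

variable {A : Type u} [CommRing A] [Algebra k A]

theorem aeval_surjective {x : ι → A} (hgen : Algebra.adjoin k (Set.range x) = ⊤) :
    Function.Surjective (aeval x : MvPolynomial ι k →ₐ[k] A) := by
  intro a
  have h : a ∈ (aeval x : MvPolynomial ι k →ₐ[k] A).range := by
    rw [← Algebra.adjoin_range_eq_range_aeval, hgen]
    trivial
  exact h

/-- the isomorphism `S/I ≃ A` -/
noncomputable def quotEquiv {x : ι → A} (hgen : Algebra.adjoin k (Set.range x) = ⊤)
    {I : Ideal (MvPolynomial ι k)}
    (hI : I = RingHom.ker (aeval x : MvPolynomial ι k →ₐ[k] A)) : (MvPolynomial ι k ⧸ I) ≃ₐ[k] A :=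
  (Ideal.quotientEquivAlgOfEq k hI).trans
    (Ideal.quotientKerAlgEquivOfSurjective (aeval_surjective hgen))

theorem quotEquiv_mk {x : ι → A} (hgen : Algebra.adjoin k (Set.range x) = ⊤)
    {I : Ideal (MvPolynomial ι k)}
    (hI : I = RingHom.ker (aeval x : MvPolynomial ι k →ₐ[k] A)) (f : MvPolynomial ι k) :
    quotEquiv hgen hI (Ideal.Quotient.mk I f) = aeval x f := by
  subst hI
  rfl

theorem quotEquiv_symm {x : ι → A} (hgen : Algebra.adjoin k (Set.range x) = ⊤)
    {I : Ideal (MvPolynomial ι k)}
    (hI : I = RingHom.ker (aeval x : MvPolynomial ι k →ₐ[k] A)) (f : MvPolynomial ι k) :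
    (quotEquiv hgen hI).symm (aeval x f) = Ideal.Quotient.mk I f := by
  rw [← quotEquiv_mk hgen hI, AlgEquiv.symm_apply_apply]

theorem quot_smul (I : Ideal (MvPolynomial ι k)) (f : MvPolynomial ι k)
    (a : MvPolynomial ι k ⧸ I) : f • a = Ideal.Quotient.mk I f * a := by
  obtain ⟨b, rfl⟩ := Ideal.Quotient.mk_surjective a
  rfl

theorem C_smul (I : Ideal (MvPolynomial ι k)) (c : k) (g : I) :
    c • g = (C c : MvPolynomial ι k) • g := by
  apply Subtype.ext
  exact (MvPolynomial.C_mul' (a := c) (p := g.1)).symm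

/-- from tangent vectors to homomorphisms -/
noncomputable def toHom {x : ι → A}
    (e : (MvPolynomial ι k ⧸ RingHom.ker (aeval x : MvPolynomial ι k →ₐ[k] A)) ≃ₐ[k] A)
    (he : ∀ f, e (Ideal.Quotient.mk _ f) = aeval x f) (ψ : tangent (k := k) x) :
    RingHom.ker (aeval x : MvPolynomial ι k →ₐ[k] A) →ₗ[MvPolynomial ι k]
      MvPolynomial ι k ⧸ RingHom.ker (aeval x : MvPolynomial ι k →ₐ[k] A) where
  toFun g := e.symm (ψ.1 g)
  map_add' g h := by rw [map_add, map_add]
  map_smul' f g := by
    rw [ψ.2 f g, ← he, map_mul, AlgEquiv.symm_apply_apply, RingHom.id_apply, quot_smul]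

/-- from homomorphisms to tangent vectors -/
noncomputable def ofHom {x : ι → A}
    (e : (MvPolynomial ι k ⧸ RingHom.ker (aeval x : MvPolynomial ι k →ₐ[k] A)) ≃ₐ[k] A)
    (he : ∀ f, e (Ideal.Quotient.mk _ f) = aeval x f)
    (φ : RingHom.ker (aeval x : MvPolynomial ι k →ₐ[k] A) →ₗ[MvPolynomial ι k]
      MvPolynomial ι k ⧸ RingHom.ker (aeval x : MvPolynomial ι k →ₐ[k] A)) :
    tangent (k := k) x :=
  ⟨{ toFun := fun g => e (φ g)
     map_add' := fun g h => by rw [map_add, map_add]
     map_smul' := fun c g => by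
      rw [C_smul, map_smul, quot_smul, map_mul, he, aeval_C, ← Algebra.smul_def,
        RingHom.id_apply] }, fun f g => by
    change e (φ (f • g)) = _ * e (φ g)
    rw [map_smul, quot_smul, map_mul, he]⟩

/-- the two descriptions of the tangent space agree -/
theorem tangentDim_eq {x : ι → A} (hgen : Algebra.adjoin k (Set.range x) = ⊤)
    {I : Ideal (MvPolynomial ι k)}
    (hI : I = RingHom.ker (aeval x : MvPolynomial ι k →ₐ[k] A)) :
    tangentDim I = finrank k (tangent (k := k) x) := by
  subst hI
  let e := quotEquiv hgen rfl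
  have he : ∀ f, e (Ideal.Quotient.mk _ f) = aeval x f := quotEquiv_mk hgen rfl
  let E : tangent (k := k) x ≃ₗ[k] (RingHom.ker (aeval x : MvPolynomial ι k →ₐ[k] A)
      →ₗ[MvPolynomial ι k] MvPolynomial ι k ⧸ RingHom.ker (aeval x : MvPolynomial ι k →ₐ[k] A)) :=
    { toFun := toHom e he
      invFun := ofHom e he
      map_add' := by
        intro ψ φ
        apply LinearMap.ext
        intro g
        exact map_add e.symm _ _
      map_smul' := by
        intro c ψ
        apply LinearMap.ext
        intro g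
        exact map_smul e.symm c _
      left_inv := by
        intro ψ
        apply Subtype.ext
        apply LinearMap.ext
        intro g
        exact e.apply_symm_apply _
      right_inv := by
        intro φ
        apply LinearMap.ext
        intro g
        exact e.symm_apply_apply _ }
  exact E.finrank_eq.symm

theorem adjoin_mk (I : Ideal (MvPolynomial ι k)) :
    Algebra.adjoin k (Set.range fun i => Ideal.Quotient.mk I (X i)) = ⊤ := by
  rw [Algebra.adjoin_range_eq_range_aeval, eq_top_iff]
  rintro a -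
  obtain ⟨f, rfl⟩ := Ideal.Quotient.mk_surjective a
  refine ⟨f, ?_⟩
  have h : (aeval fun i => Ideal.Quotient.mk I (X i) : MvPolynomial ι k →ₐ[k] _) =
      Ideal.Quotient.mkₐ k I := by
    apply MvPolynomial.algHom_ext
    intro i
    rw [aeval_X]
    rfl
  rw [AlgHom.toRingHom_eq_coe, RingHom.coe_coe, h]
  rfl

theorem ker_aeval_mk (I : Ideal (MvPolynomial ι k)) :
    I = RingHom.ker (aeval fun i => Ideal.Quotient.mk I (X i) : MvPolynomial ι k →ₐ[k] _) := by
  have h : (aeval fun i => Ideal.Quotient.mk I (X i) : MvPolynomial ι k →ₐ[k] _) =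
      Ideal.Quotient.mkₐ k I := by
    apply MvPolynomial.algHom_ext
    intro i
    rw [aeval_X]
    rfl
  rw [h]
  exact (Ideal.Quotient.mkₐ_ker k I).symm

theorem tangentDim_eq' (I : Ideal (MvPolynomial ι k)) :
    tangentDim I = finrank k (tangent (k := k) fun i => Ideal.Quotient.mk I (X i)) :=
  tangentDim_eq (adjoin_mk I) (ker_aeval_mk I)

theorem finrank_socle_congr {A B : Type u} [CommRing A] [Algebra k A] [CommRing B] [Algebra k B]
    (e : A ≃ₐ[k] B) : finrank k (socle k A) = finrank k (socle k B) := by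
  let E : socle k A ≃ₗ[k] socle k B :=
    { toFun := fun a => ⟨e a, by
        intro b hb
        have h := a.2 (e.symm b) (hb.map e.symm)
        rw [← e.apply_symm_apply b, ← map_mul, h, map_zero]⟩
      invFun := fun a => ⟨e.symm a, by
        intro b hb
        have h := a.2 (e b) (hb.map e)
        rw [← e.symm_apply_apply b, ← map_mul, h, map_zero]⟩
      map_add' := fun a b => Subtype.ext (map_add e _ _)
      map_smul' := fun c a => Subtype.ext (map_smul e c _)
      left_inv := fun a => Subtype.ext (e.symm_apply_apply _)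
      right_inv := fun a => Subtype.ext (e.apply_symm_apply _) }
  exact E.finrank_eq

end

section

variable (k : Type u) [Field k]

/-- the ideal of `k[x_0, x_1, y_0, y_1]` (with `x_p = X (0, p)`, `y_p = X (1, p)`) generated by the
seven quadrics `x_0² - y_0²`, `x_0 x_1 - y_0 y_1`, `x_1² - y_1²`, `x_p y_q` -/
noncomputable def I₇ : Ideal (MvPolynomial (Fin 2 × Fin 2) k) :=
  Ideal.span {X (0, 0) ^ 2 - X (1, 0) ^ 2, X (0, 0) * X (0, 1) - X (1, 0) * X (1, 1),
    X (0, 1) ^ 2 - X (1, 1) ^ 2, X (0, 0) * X (1, 0), X (0, 0) * X (1, 1), X (0, 1) * X (1, 0),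
    X (0, 1) * X (1, 1)}

theorem I₇_eq : I₇ k = RingHom.ker (aeval (gx k) : MvPolynomial (Fin 2 × Fin 2) k →ₐ[k] Net k 2) := by
  rw [← span_quad, I₇]
  congr 1
  ext f
  simp only [Set.mem_insert_iff, Set.mem_singleton_iff, Set.mem_range, Sum.exists, Prod.exists,
    Fin.exists_fin_succ, quad, Sum.elim_inl, Sum.elim_inr, sq]
  simp only [Fin.exists_fin_zero, Matrix.cons_val_zero, Matrix.cons_val_succ]
  constructor
  · rintro (rfl | rfl | rfl | rfl | rfl | rfl | rfl) <;> simp
  · intro h
    rcases h with (h | h | h | h) | (h | h) | (h | h) <;> simp_all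
    all_goals tauto

end

end Pool.Agent.H12.TG
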