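import Pool.Agent.H12.TG.Box

/-!
# The tangent space of the Hilbert scheme and cocycles
-/

open Module

namespace Pool.Agent.H12.TG

section tangent

variable {k : Type*} [Field k] {A : Type*} [CommRing A] [Algebra k A] {ι : Type*}

/-- `Hom_S(I, A)` for `S = k[X_i]`, `I` the kernel of `S → A`, `X_i ↦ x_i`: the tangent space of the
Hilbert scheme at `Spec A ⊆ 𝔸^ι`. -/
def tangent (x : ι → A) :
    Submodule k (RingHom.ker (MvPolynomial.aeval x : MvPolynomial ι k →ₐ[k] A) →ₗ[k] A) where
  carrier := {ψ | ∀ (f : MvPolynomial ι k) (g : RingHom.ker (MvPolynomial.aeval x :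
    MvPolynomial ι k →ₐ[k] A)), ψ (f • g) = MvPolynomial.aeval x f * ψ g}
  add_mem' := by
    intro ψ φ hψ hφ f g
    rw [LinearMap.add_apply, hψ, hφ, LinearMap.add_apply, mul_add]
  zero_mem' := by
    intro f g
    simp
  smul_mem' := by
    intro c ψ hψ f g
    rw [LinearMap.smul_apply, hψ, LinearMap.smul_apply, mul_smul_comm]

theorem mem_tangent {x : ι → A} {ψ : RingHom.ker (MvPolynomial.aeval x :
    MvPolynomial ι k →ₐ[k] A) →ₗ[k] A} : ψ ∈ tangent x ↔ ∀ (f : MvPolynomial ι k)
    (g : RingHom.ker (MvPolynomial.aeval x : MvPolynomial ι k →ₐ[k] A)),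
    ψ (f • g) = MvPolynomial.aeval x f * ψ g := Iff.rfl

/-- a tangent vector that vanishes on generators vanishes -/
theorem tangent_ext {x : ι → A} {s : Set (MvPolynomial ι k)}
    (hs : Ideal.span s = RingHom.ker (MvPolynomial.aeval x : MvPolynomial ι k →ₐ[k] A))
    {ψ : RingHom.ker (MvPolynomial.aeval x : MvPolynomial ι k →ₐ[k] A) →ₗ[k] A}
    (hψ : ψ ∈ tangent x) (h : ∀ g (hg : g ∈ s), ψ ⟨g, hs ▸ Ideal.subset_span hg⟩ = 0) : ψ = 0 := by
  have key : ∀ g (hg : g ∈ Ideal.span s), ψ ⟨g, hs ▸ hg⟩ = 0 := by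
    intro g hg
    induction hg using Submodule.span_induction with
    | mem g hg => exact h g hg
    | zero =>
      have : (⟨0, hs ▸ Submodule.zero_mem (Ideal.span s)⟩ :
        RingHom.ker (MvPolynomial.aeval x : MvPolynomial ι k →ₐ[k] A)) = 0 := rfl
      rw [this, map_zero]
    | add f g hf hg hf' hg' =>
      have : (⟨f + g, hs ▸ Submodule.add_mem _ hf hg⟩ :
        RingHom.ker (MvPolynomial.aeval x : MvPolynomial ι k →ₐ[k] A)) =
          ⟨f, hs ▸ hf⟩ + ⟨g, hs ▸ hg⟩ := rfl
      rw [this, map_add, hf', hg', add_zero]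
    | smul f g hg hg' =>
      have : (⟨f • g, hs ▸ Submodule.smul_mem _ f hg⟩ :
        RingHom.ker (MvPolynomial.aeval x : MvPolynomial ι k →ₐ[k] A)) = f • ⟨g, hs ▸ hg⟩ := rfl
      rw [this, hψ, hg', mul_zero]
  ext g
  rw [LinearMap.zero_apply]
  exact key g.1 (hs.symm ▸ g.2)

instance [Finite ι] [FiniteDimensional k A] (x : ι → A) : FiniteDimensional k (tangent (k := k) x) := by
  obtain ⟨s, hs⟩ := (isNoetherianRing_iff_ideal_fg (MvPolynomial ι k)).mp inferInstance
    (RingHom.ker (MvPolynomial.aeval x : MvPolynomial ι k →ₐ[k] A))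
  let F : tangent (k := k) x →ₗ[k] (s → A) :=
    { toFun := fun ψ g => ψ.1 ⟨g, hs ▸ Ideal.subset_span g.2⟩
      map_add' := by intro ψ φ; rfl
      map_smul' := by intro c ψ; rfl }
  refine FiniteDimensional.of_injective F ?_
  rw [injective_iff_map_eq_zero]
  intro ψ hψ
  apply Subtype.ext
  exact tangent_ext hs ψ.2 fun g hg => congrFun hψ ⟨g, hg⟩

end tangent

theorem exists_hom {k : Type*} [Field k] {N : Type*} [AddCommGroup N] [Module k N] {ι : Type*}
    (X : ι → Module.End k N) (h : ∀ i j, X i * X j = X j * X i) :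
    ∃ Φ : MvPolynomial ι k →ₐ[k] Module.End k N, ∀ i, Φ (MvPolynomial.X i) = X i := by
  have hcomm : ∀ a ∈ Set.range X, ∀ b ∈ Set.range X, a * b = b * a := by
    rintro _ ⟨i, rfl⟩ _ ⟨j, rfl⟩
    exact h i j
  let _ : CommRing (Algebra.adjoin k (Set.range X)) :=
    { (Algebra.adjoin k (Set.range X)).toRing with
      mul_comm := (Algebra.isMulCommutative_adjoin k hcomm).is_comm.comm }
  let Φ0 : MvPolynomial ι k →ₐ[k] Algebra.adjoin k (Set.range X) :=
    MvPolynomial.aeval (fun i => ⟨X i, Algebra.subset_adjoin ⟨i, rfl⟩⟩)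
  refine ⟨(Algebra.adjoin k (Set.range X)).val.comp Φ0, ?_⟩
  intro i
  simp [Φ0]

theorem ad_comm {k : Type*} [Field k] {ι V U : Type*} [AddCommGroup V] [Module k V]
    [AddCommGroup U] [Module k U] {X : ι → V →ₗ[k] V} {Y : ι → U →ₗ[k] U}
    (hX : ∀ i j v, X i (X j v) = X j (X i v)) (hY : ∀ i j v, Y i (Y j v) = Y j (Y i v))
    (i j : ι) (m : V →ₗ[k] U) : ad X Y i (ad X Y j m) = ad X Y j (ad X Y i m) := by
  ext v
  simp only [ad_apply, LinearMap.sub_apply, LinearMap.comp_apply, map_sub]
  rw [hY i j, hX i j]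
  abel

/-- multiplication operators -/
def mulOp (k : Type*) [Field k] {A : Type*} [CommRing A] [Algebra k A] {ι : Type*} (x : ι → A)
    (i : ι) : A →ₗ[k] A := LinearMap.mulLeft k (x i)

@[simp] theorem mulOp_apply {k : Type*} [Field k] {A : Type*} [CommRing A] [Algebra k A]
    {ι : Type*} (x : ι → A) (i : ι) (a : A) : mulOp k x i a = x i * a := rfl

theorem mulOp_comm {k : Type*} [Field k] {A : Type*} [CommRing A] [Algebra k A]
    {ι : Type*} (x : ι → A) (i j : ι) (a : A) :
    mulOp k x i (mulOp k x j a) = mulOp k x j (mulOp k x i a) := by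
  simp only [mulOp_apply]; ring

section main

variable {k : Type*} [Field k] {A : Type*} [CommRing A] [Algebra k A] [FiniteDimensional k A]
  {ι : Type*} [Finite ι]

omit [Finite ι] in
/-- endomorphisms commuting with generators are multiplications -/
theorem finrank_H0_mulOp_le (x : ι → A) (hx : Algebra.adjoin k (Set.range x) = ⊤) :
    finrank k (H0 (ad (mulOp k x) (mulOp k x))) ≤ finrank k A := by
  let F : H0 (ad (mulOp k x) (mulOp k x)) →ₗ[k] A :=
    { toFun := fun f => (f : A →ₗ[k] A) 1
      map_add' := by intro f g; rfl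
      map_smul' := by intro c f; rfl }
  refine LinearMap.finrank_le_finrank_of_injective (f := F) ?_
  rw [injective_iff_map_eq_zero]
  intro f hf
  have key : ∀ a ∈ Algebra.adjoin k (Set.range x), ∀ b, (f : A →ₗ[k] A) (a * b) =
      a * (f : A →ₗ[k] A) b := by
    intro a ha
    induction ha using Algebra.adjoin_induction with
    | mem a ha =>
      obtain ⟨i, rfl⟩ := ha
      intro b
      have h := LinearMap.congr_fun (f.2 i) b
      simp only [ad_apply, LinearMap.sub_apply, LinearMap.comp_apply, mulOp_apply,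
        LinearMap.zero_apply] at h
      exact (sub_eq_zero.mp h).symm
    | algebraMap r =>
      intro b
      rw [← Algebra.smul_def, ← Algebra.smul_def, map_smul]
    | add a a' _ _ ha ha' =>
      intro b
      rw [add_mul, map_add, ha, ha', add_mul]
    | mul a a' _ _ ha ha' =>
      intro b
      rw [mul_assoc, ha, ha', mul_assoc]
  apply Subtype.ext
  ext a
  have h1 := key a (by rw [hx]; trivial) 1
  rw [mul_one] at h1
  rw [h1]
  have h2 : (f : A →ₗ[k] A) 1 = 0 := hf
  rw [h2, mul_zero]
  rfl

/-- The cocycles of `A` modulo coboundaries embed in the tangent space `Hom_S(I, A)`. -/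
theorem Bd_mulOp (x : ι → A) (hx : Algebra.adjoin k (Set.range x) = ⊤) :
    Bd (ad (mulOp k x) (mulOp k x)) (finrank k A) (finrank k (tangent (k := k) x)) := by
  classical
  have hcom := mulOp_comm (k := k) x
  refine ⟨ad_comm hcom hcom, finrank_H0_mulOp_le x hx, ?_⟩
  -- the module of first order deformations
  let Z := Z1 (ad (mulOp k x) (mulOp k x))
  let ev : ι → A →ₗ[k] (Z →ₗ[k] A) := fun i =>
    LinearMap.flip ((LinearMap.proj i) ∘ₗ Z.subtype)
  have hev : ∀ i b (z : Z), ev i b z = (z : ι → A →ₗ[k] A) i b := fun i b z => rfl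
  let Xh : ι → Module.End k (A × (Z →ₗ[k] A)) := fun i =>
    { toFun := fun p => (x i * p.1, (mulOp k x i) ∘ₗ p.2 + ev i p.1)
      map_add' := by
        intro p q
        ext
        · simp [mul_add]
        · simp only [Prod.snd_add, Prod.fst_add, LinearMap.comp_add, map_add,
            LinearMap.add_apply]
          abel
      map_smul' := by
        intro c p
        ext
        · simp
        · simp [LinearMap.comp_smul] }
  have hXh : ∀ i j, Xh i * Xh j = Xh j * Xh i := by
    intro i j
    apply LinearMap.ext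
    intro p
    apply Prod.ext
    · change x i * (x j * p.1) = x j * (x i * p.1)
      ring
    · apply LinearMap.ext
      intro z
      change x i * (x j * p.2 z + (z : ι → A →ₗ[k] A) j p.1) + (z : ι → A →ₗ[k] A) i (x j * p.1) =
        x j * (x i * p.2 z + (z : ι → A →ₗ[k] A) i p.1) + (z : ι → A →ₗ[k] A) j (x i * p.1)
      have h := LinearMap.congr_fun (z.2 i j) p.1
      simp only [ad_apply, LinearMap.sub_apply, LinearMap.comp_apply, mulOp_apply] at h
      linear_combination h
  obtain ⟨Φ, hΦ⟩ := exists_hom Xh hXh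
  let φ : MvPolynomial ι k →ₐ[k] A := MvPolynomial.aeval x
  let 𝒟 : MvPolynomial ι k → A → Z → A := fun f b z => (Φ f (b, 0)).2 z
  have h𝒟 : ∀ f b h, Φ f (b, h) = (φ f * b, φ f • h + (Φ f (b, 0)).2) := by
    intro f
    induction f using MvPolynomial.induction_on with
    | C r =>
      intro b h
      have h1 : Φ (MvPolynomial.C r) = algebraMap k _ r := Φ.commutes r
      have h2 : φ (MvPolynomial.C r) = algebraMap k _ r := φ.commutes r
      rw [h1, h2]
      simp [Module.algebraMap_end_apply, Algebra.smul_def]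
    | add f g hf hg =>
      intro b h
      have h1 : ∀ p, Φ (f + g) p = Φ f p + Φ g p := fun p => by rw [map_add]; rfl
      rw [h1, h1, hf b h, hg b h, map_add]
      apply Prod.ext
      · simp only [Prod.fst_add, add_mul]
      · simp only [Prod.snd_add, add_smul]
        abel
    | mul_X f i hf =>
      intro b h
      have h1 : ∀ p, Φ (f * MvPolynomial.X i) p = Φ f (Xh i p) := fun p => by
        rw [map_mul, hΦ]; rfl
      have h2 : ∀ b h, Xh i (b, h) = (x i * b, (mulOp k x i) ∘ₗ h + ev i b) := fun b h => rfl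
      rw [h1, h1, h2, h2, hf, hf (x i * b) (_ ∘ₗ 0 + _), map_mul]
      have h3 : φ (MvPolynomial.X i) = x i := MvPolynomial.aeval_X _ _
      rw [h3]
      apply Prod.ext
      · simp only [mul_assoc]
      · apply LinearMap.ext
        intro z
        simp only [LinearMap.add_apply, LinearMap.smul_apply, LinearMap.comp_apply, mulOp_apply,
          LinearMap.zero_apply, smul_eq_mul, mul_zero]
        ring
  have h𝒟mul : ∀ f g, (Φ (f * g) (1, 0)).2 = φ f • (Φ g (1, 0)).2 + (Φ f (φ g, 0)).2 := by
    intro f g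
    have h1 : Φ (f * g) (1, 0) = Φ f (Φ g (1, 0)) := by rw [map_mul]; rfl
    rw [h1]
    conv_lhs => rw [show Φ g (1, 0) = (φ g, (Φ g (1, 0)).2) from by
      apply Prod.ext
      · rw [h𝒟 g 1 0]; simp
      · rfl]
    rw [h𝒟 f]
  -- the map to the tangent space
  let Ψ : Z →ₗ[k] tangent (k := k) x :=
    { toFun := fun z => ⟨
        { toFun := fun f => (Φ f (1, 0)).2 z
          map_add' := by
            intro f g
            simp [map_add]
          map_smul' := by
            intro c f
            simp [map_smul] }, by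
        intro f g
        change (Φ (f * g) (1, 0)).2 z = φ f * (Φ g (1, 0)).2 z
        rw [h𝒟mul f g]
        have h1 : φ (g : MvPolynomial ι k) = 0 := g.2
        rw [h1]
        have h2 : (Φ f ((0 : A), (0 : Z →ₗ[k] A))).2 = 0 := by
          have : ((0 : A), (0 : Z →ₗ[k] A)) = 0 := rfl
          rw [this, map_zero]; rfl
        rw [h2, add_zero]
        rfl⟩
      map_add' := by
        intro z w
        apply Subtype.ext
        apply LinearMap.ext
        intro f
        exact map_add (Φ f.1 (1, 0)).2 z w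
      map_smul' := by
        intro c z
        apply Subtype.ext
        apply LinearMap.ext
        intro f
        exact map_smul (Φ f.1 (1, 0)).2 c z }
  -- coboundaries
  let D : (A →ₗ[k] A) →ₗ[k] (ι → (A →ₗ[k] A)) := LinearMap.pi (ad (mulOp k x) (mulOp k x))
  have hD : LinearMap.ker D = H0 (ad (mulOp k x) (mulOp k x)) := by
    ext m
    rw [LinearMap.mem_ker, mem_H0]
    exact funext_iff
  have hker : (LinearMap.ker Ψ).map Z.subtype ≤ LinearMap.range D := by
    rintro _ ⟨z, hz, rfl⟩
    have hz' : ∀ f, φ f = 0 → (Φ f (1, 0)).2 z = 0 := by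
      intro f hf
      have h1 : Ψ z = 0 := hz
      exact LinearMap.congr_fun (congrArg Subtype.val h1)
        (⟨f, hf⟩ : RingHom.ker (MvPolynomial.aeval x : MvPolynomial ι k →ₐ[k] A))
    have hsurj : Function.Surjective φ := by
      rw [← AlgHom.range_eq_top, ← hx]
      exact (Algebra.adjoin_range_eq_range_aeval k x).symm
    obtain ⟨s, hs⟩ := LinearMap.exists_rightInverse_of_surjective φ.toLinearMap
      (LinearMap.range_eq_top.mpr hsurj)
    have hs' : ∀ a, φ (s a) = a := fun a => LinearMap.congr_fun hs a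
    let W : A →ₗ[k] A :=
      { toFun := fun a => (Φ (s a) (1, 0)).2 z
        map_add' := by intro a b; simp [map_add]
        map_smul' := by intro c a; simp [map_smul] }
    have hW : ∀ f, W (φ f) = (Φ f (1, 0)).2 z := by
      intro f
      have h1 := hz' (s (φ f) - f) (by rw [map_sub, hs', sub_self])
      rw [map_sub] at h1
      change ((Φ (s (φ f)) (1, 0)).2 - (Φ f (1, 0)).2) z = 0 at h1
      rw [LinearMap.sub_apply, sub_eq_zero] at h1
      exact h1
    refine ⟨-W, ?_⟩
    funext i
    ext a
    obtain ⟨f, rfl⟩ := hsurj a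
    change (ad (mulOp k x) (mulOp k x) i (-W)) (φ f) = (z : ι → A →ₗ[k] A) i (φ f)
    have h1 := h𝒟mul (MvPolynomial.X i) f
    have h2 := LinearMap.congr_fun h1 z
    have h3 : (Φ (MvPolynomial.X i) (φ f, 0)).2 z = (z : ι → A →ₗ[k] A) i (φ f) := by
      rw [hΦ]
      change x i * 0 + _ = _
      rw [mul_zero, zero_add]
      rfl
    have h4 : φ (MvPolynomial.X i) = x i := MvPolynomial.aeval_X _ _
    rw [LinearMap.add_apply, h3, LinearMap.smul_apply, smul_eq_mul, ← hW, ← hW, map_mul, h4] at h2
    simp only [ad_apply, LinearMap.sub_apply, LinearMap.comp_apply, mulOp_apply,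
      LinearMap.neg_apply, map_neg]
    rw [h2]
    ring
  have h1 := LinearMap.finrank_range_add_finrank_ker (K := k) (V := Z) (V₂ := tangent (k := k) x) Ψ
  have h2 : finrank k (LinearMap.range Ψ) ≤ finrank k (tangent (k := k) x) :=
    Submodule.finrank_le _
  have h3 : finrank k (LinearMap.ker Ψ) ≤ finrank k (LinearMap.range D) := by
    rw [← Submodule.finrank_map_subtype_eq]
    exact Submodule.finrank_mono hker
  have h4 := LinearMap.finrank_range_add_finrank_ker D
  rw [hD] at h4
  change finrank k Z + _ ≤ _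
  omega

end main

end Pool.Agent.H12.TG
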